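import Mathlib

set_option autoImplicit false

namespace Pool.Agent.P.MP_78d095_pr

open Finset

/-- Dirichlet form of a weight function. -/
noncomputable def form {X : Type} [Fintype X] (a : X → X → ℝ) (f : X → ℝ) : ℝ :=
  (1 / 2) * ∑ x, ∑ y, a x y * (f x - f y) ^ 2

/-- Heat trace certificate: a Parseval frame with rates below the quadratic form `E`. -/
def Cert {X : Type} [Fintype X] (E : (X → ℝ) → ℝ) (s θ : ℝ) : Prop :=
  ∃ (ι : Type) (_ : Fintype ι) (v : ι → X → ℝ) (μ : ι → ℝ), (∀ i, 0 ≤ μ i) ∧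
    (∀ f : X → ℝ, ∑ i, (∑ x, v i x * f x) ^ 2 = ∑ x, f x ^ 2) ∧
    (∀ f : X → ℝ, ∑ i, μ i * (∑ x, v i x * f x) ^ 2 ≤ E f) ∧
    ∑ i, (∑ x, v i x ^ 2) * Real.exp (-(s * μ i)) ≤ θ

variable {X Y : Type} [Fintype X] [Fintype Y]

theorem Cert.mono {E E' : (X → ℝ) → ℝ} {s s' θ θ' : ℝ} (h : Cert E s θ)
    (hE : ∀ f, E f ≤ E' f) (hs : s ≤ s') (hθ : θ ≤ θ') : Cert E' s' θ' := by
  obtain ⟨ι, hι, v, μ, h0, h1, h2, h3⟩ := h
  refine ⟨ι, hι, v, μ, h0, h1, fun f => (h2 f).trans (hE f), le_trans ?_ (h3.trans hθ)⟩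
  refine Finset.sum_le_sum fun i _ => ?_
  refine mul_le_mul_of_nonneg_left ?_ (Finset.sum_nonneg fun x _ => sq_nonneg _)
  exact Real.exp_le_exp.mpr (by nlinarith [h0 i])

theorem Cert.scale {E : (X → ℝ) → ℝ} {s θ c : ℝ} (hc : 0 < c) (h : Cert E (s * c) θ) :
    Cert (fun f => c * E f) s θ := by
  obtain ⟨ι, hι, v, μ, h0, h1, h2, h3⟩ := h
  refine ⟨ι, hι, v, fun i => c * μ i, fun i => mul_nonneg hc.le (h0 i), h1, fun f => ?_, ?_⟩
  · have := mul_le_mul_of_nonneg_left (h2 f) hc.le
    rw [Finset.mul_sum] at this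
    refine le_trans (le_of_eq ?_) this
    refine Finset.sum_congr rfl fun i _ => by ring
  · refine le_trans (le_of_eq ?_) h3
    refine Finset.sum_congr rfl fun i _ => ?_
    congr 2
    ring

theorem Cert.prod {E : (X → ℝ) → ℝ} {E' : (Y → ℝ) → ℝ} {s θ θ' : ℝ} (h : Cert E s θ)
    (h' : Cert E' s θ') :
    Cert (fun f : X × Y → ℝ => ∑ y, E (fun x => f (x, y)) + ∑ x, E' (fun y => f (x, y))) s
      (θ * θ') := by
  obtain ⟨ι, hι, v, μ, h0, h1, h2, h3⟩ := h
  obtain ⟨ι', hι', v', μ', h0', h1', h2', h3'⟩ := h'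
  have e1 : ∀ (f : X × Y → ℝ) (i : ι) (j : ι'), ∑ p : X × Y, (v i p.1 * v' j p.2) * f p
      = ∑ x, v i x * ∑ y, v' j y * f (x, y) := by
    intro f i j
    rw [Fintype.sum_prod_type]
    refine Finset.sum_congr rfl fun x _ => ?_
    rw [Finset.mul_sum]
    refine Finset.sum_congr rfl fun y _ => by ring
  have e2 : ∀ (f : X × Y → ℝ) (i : ι) (j : ι'), ∑ p : X × Y, (v i p.1 * v' j p.2) * f p
      = ∑ y, v' j y * ∑ x, v i x * f (x, y) := by
    intro f i j
    rw [Fintype.sum_prod_type_right]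
    refine Finset.sum_congr rfl fun y _ => ?_
    rw [Finset.mul_sum]
    refine Finset.sum_congr rfl fun x _ => by ring
  refine ⟨ι × ι', inferInstance, fun k p => v k.1 p.1 * v' k.2 p.2, fun k => μ k.1 + μ' k.2,
    fun k => add_nonneg (h0 _) (h0' _), fun f => ?_, fun f => ?_, ?_⟩
  · rw [Fintype.sum_prod_type_right]
    simp only [e1]
    simp only [h1]
    rw [Finset.sum_comm]
    simp only [h1']
    rw [Fintype.sum_prod_type]
  · simp only [add_mul, Finset.sum_add_distrib]
    refine add_le_add ?_ ?_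
    · rw [Fintype.sum_prod_type]
      simp only [e2]
      simp only [← Finset.mul_sum, h1']
      simp only [Finset.mul_sum]
      rw [Finset.sum_comm]
      refine Finset.sum_le_sum fun y _ => ?_
      exact h2 _
    · rw [Fintype.sum_prod_type_right]
      simp only [e1]
      simp only [← Finset.mul_sum, h1]
      simp only [Finset.mul_sum]
      rw [Finset.sum_comm]
      refine Finset.sum_le_sum fun x _ => ?_
      exact h2' _
  · have hn : 0 ≤ ∑ i, (∑ x, v i x ^ 2) * Real.exp (-(s * μ i)) :=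
      Finset.sum_nonneg fun i _ => mul_nonneg (Finset.sum_nonneg fun x _ => sq_nonneg _)
        (Real.exp_pos _).le
    have hn' : 0 ≤ ∑ i, (∑ x, v' i x ^ 2) * Real.exp (-(s * μ' i)) :=
      Finset.sum_nonneg fun i _ => mul_nonneg (Finset.sum_nonneg fun x _ => sq_nonneg _)
        (Real.exp_pos _).le
    refine le_trans (le_of_eq ?_) (mul_le_mul h3 h3' hn' (hn.trans h3))
    rw [Finset.sum_mul_sum, Fintype.sum_prod_type]
    refine Finset.sum_congr rfl fun i _ => Finset.sum_congr rfl fun j _ => ?_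
    have : ∑ p : X × Y, (v i p.1 * v' j p.2) ^ 2 = (∑ x, v i x ^ 2) * ∑ y, v' j y ^ 2 := by
      rw [Finset.sum_mul_sum, Fintype.sum_prod_type]
      refine Finset.sum_congr rfl fun x _ => Finset.sum_congr rfl fun y _ => by ring
    simp only [this]
    rw [show -(s * (μ i + μ' j)) = -(s * μ i) + -(s * μ' j) by ring, Real.exp_add]
    ring

theorem cert_unit (s : ℝ) : Cert (fun _ : Unit → ℝ => (0 : ℝ)) s 1 := by
  refine ⟨Unit, inferInstance, fun _ _ => 1, fun _ => 0, fun _ => le_rfl, fun f => ?_,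
    fun f => ?_, ?_⟩ <;> simp

theorem cert_poincare [Nonempty X] {E : (X → ℝ) → ℝ} {g s : ℝ} (hg : 0 ≤ g)
    (hE : ∀ f : X → ℝ, g * (∑ x, f x ^ 2 - (∑ x, f x) ^ 2 / Fintype.card X) ≤ E f) :
    Cert E s (1 + Fintype.card X * Real.exp (-(s * g))) := by
  classical
  set n : ℝ := (Fintype.card X : ℝ) with hn
  have hnpos : 0 < n := by
    rw [hn]; exact_mod_cast Fintype.card_pos
  have hsq : Real.sqrt n ^ 2 = n := Real.sq_sqrt hnpos.le
  have hsp : 0 < Real.sqrt n := Real.sqrt_pos.mpr hnpos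
  let v : Option X → X → ℝ := fun i x =>
    match i with
    | none => 1 / Real.sqrt n
    | some z => (if x = z then 1 else 0) - 1 / n
  have hv0 : ∀ f : X → ℝ, (∑ x, v none x * f x) ^ 2 = (∑ x, f x) ^ 2 / n := by
    intro f
    simp only [v]
    rw [← Finset.mul_sum, mul_pow, div_pow, hsq]
    ring
  have hv1 : ∀ (f : X → ℝ) (z : X), ∑ x, v (some z) x * f x = f z - (∑ x, f x) / n := by
    intro f z
    simp only [v, sub_mul, Finset.sum_sub_distrib, ite_mul, one_mul, zero_mul,
      Finset.sum_ite_eq', Finset.mem_univ, if_true]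
    rw [← Finset.mul_sum]
    ring
  have hv2 : ∀ f : X → ℝ, ∑ z, (f z - (∑ x, f x) / n) ^ 2
      = ∑ x, f x ^ 2 - (∑ x, f x) ^ 2 / n := by
    intro f
    have : ∀ z, (f z - (∑ x, f x) / n) ^ 2
        = f z ^ 2 - 2 * ((∑ x, f x) / n) * f z + ((∑ x, f x) / n) ^ 2 := fun z => by ring
    simp only [this, Finset.sum_add_distrib, Finset.sum_sub_distrib, ← Finset.mul_sum,
      Finset.sum_const, Finset.card_univ, nsmul_eq_mul, ← hn]
    field_simp
    ring
  refine ⟨Option X, inferInstance, v, fun i => match i with | none => 0 | some _ => g,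
    fun i => ?_, fun f => ?_, fun f => ?_, ?_⟩
  · cases i <;> simp [hg]
  · rw [Fintype.sum_option, hv0]
    simp only [hv1, hv2]
    ring
  · rw [Fintype.sum_option]
    simp only [hv1, zero_mul, zero_add, ← Finset.mul_sum, hv2]
    exact hE f
  · rw [Fintype.sum_option]
    refine add_le_add (le_of_eq ?_) ?_
    · simp only [v, mul_zero, neg_zero, Real.exp_zero, mul_one, Finset.sum_const,
        Finset.card_univ, nsmul_eq_mul, ← hn]
      rw [div_pow, hsq]
      field_simp
    · have : ∀ z : X, ∑ x, v (some z) x ^ 2 ≤ 1 := by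
        intro z
        have h1 := hv2 (fun x => if x = z then 1 else 0)
        simp only [Finset.sum_ite_eq', Finset.mem_univ, if_true, ite_pow, one_pow,
          ne_eq, OfNat.ofNat_ne_zero, not_false_eq_true, zero_pow] at h1
        simp only [v]
        rw [h1]
        have : 0 ≤ 1 / n := by positivity
        linarith
      calc ∑ z : X, (∑ x, v (some z) x ^ 2) * Real.exp (-(s * g))
          ≤ ∑ _z : X, 1 * Real.exp (-(s * g)) :=
            Finset.sum_le_sum fun z _ => mul_le_mul_of_nonneg_right (this z) (Real.exp_pos _).le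
        _ = n * Real.exp (-(s * g)) := by
            simp [hn]

/-- A real symmetric matrix has an orthogonal eigenbasis. -/
theorem exists_eigen [DecidableEq X] (P : Matrix X X ℝ) (hP : ∀ x y, P x y = P y x) :
    ∃ (U : Matrix X X ℝ) (p : X → ℝ), U * U.transpose = 1 ∧ U.transpose * U = 1 ∧
      P * U = U * Matrix.diagonal p := by
  have hH : P.IsHermitian := by
    ext x y
    simp [Matrix.conjTranspose_apply, hP y x]
  refine ⟨(hH.eigenvectorUnitary : Matrix X X ℝ), hH.eigenvalues, ?_, ?_, ?_⟩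
  · have := Unitary.coe_mul_star_self hH.eigenvectorUnitary
    simpa [Matrix.star_eq_conjTranspose, Matrix.conjTranspose_eq_transpose_of_trivial] using this
  · have := Unitary.coe_star_mul_self hH.eigenvectorUnitary
    simpa [Matrix.star_eq_conjTranspose, Matrix.conjTranspose_eq_transpose_of_trivial] using this
  · ext x k
    have := congrFun (hH.mulVec_eigenvectorBasis k) x
    simp only [Matrix.mulVec, dotProduct, Pi.smul_apply, smul_eq_mul] at this
    rw [Matrix.mul_diagonal, Matrix.mul_apply]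
    simp only [Matrix.IsHermitian.eigenvectorUnitary_apply]
    rw [this, mul_comm]

theorem trace_pow_le [DecidableEq X] (P : Matrix X X ℝ) (hP : ∀ x y, P x y = P y x)
    {E : (X → ℝ) → ℝ} {s θ κ : ℝ} (hκ : 0 ≤ κ) (hC : Cert E s θ)
    (hE : ∀ f : X → ℝ, ∑ x, ∑ y, f x * P x y * f y = ∑ x, f x ^ 2 - κ * E f)
    (hpos : ∀ f : X → ℝ, 0 ≤ ∑ x, ∑ y, f x * P x y * f y) (N : ℕ) (hN : s ≤ N * κ) :
    (P ^ N).trace ≤ θ := by
  obtain ⟨U, p, hU1, hU2, hPU⟩ := exists_eigen P hP
  obtain ⟨ι, hι, v, μ, h0, h1, h2, h3⟩ := hC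
  have hpow : ∀ n : ℕ, P ^ n * U = U * Matrix.diagonal (fun k => p k ^ n) := by
    intro n
    induction n with
    | zero => simp
    | succ n ih =>
      rw [pow_succ', Matrix.mul_assoc, ih, ← Matrix.mul_assoc, hPU, Matrix.mul_assoc,
        Matrix.diagonal_mul_diagonal]
      congr 2
      funext k
      ring
  have htr : (P ^ N).trace = ∑ k, p k ^ N := by
    have : P ^ N = U * Matrix.diagonal (fun k => p k ^ N) * U.transpose := by
      rw [← hpow, Matrix.mul_assoc, hU1, Matrix.mul_one]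
    rw [this, Matrix.trace_mul_comm, ← Matrix.mul_assoc, hU2, Matrix.one_mul,
      Matrix.trace_diagonal]
  have hnorm : ∀ k, ∑ x, U x k ^ 2 = 1 := by
    intro k
    have := congrFun (congrFun hU2 k) k
    simp only [Matrix.mul_apply, Matrix.transpose_apply, Matrix.one_apply_eq] at this
    rw [← this]
    exact Finset.sum_congr rfl fun x _ => by ring
  have hray : ∀ k, ∑ x, ∑ y, U x k * P x y * U y k = p k := by
    intro k
    have e : ∀ x, ∑ y, U x k * P x y * U y k = p k * U x k ^ 2 := by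
      intro x
      have := congrFun (congrFun hPU x) k
      rw [Matrix.mul_diagonal, Matrix.mul_apply] at this
      simp only [mul_assoc, ← Finset.mul_sum, this]
      ring
    simp only [e, ← Finset.mul_sum, hnorm, mul_one]
  -- coefficients
  set c : X → ι → ℝ := fun k i => (∑ x, v i x * U x k) ^ 2 with hc
  have hc0 : ∀ k i, 0 ≤ c k i := fun k i => sq_nonneg _
  have hc1 : ∀ k, ∑ i, c k i = 1 := fun k => by
    simp only [hc]
    rw [h1 (fun x => U x k), hnorm]
  have hc2 : ∀ i, ∑ k, c k i = ∑ x, v i x ^ 2 := by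
    intro i
    simp only [hc]
    have e : ∀ k, (∑ x, v i x * U x k) ^ 2 = ∑ x, ∑ y, v i x * v i y * (U x k * U y k) := by
      intro k
      rw [sq, Finset.sum_mul_sum]
      exact Finset.sum_congr rfl fun x _ => Finset.sum_congr rfl fun y _ => by ring
    simp only [e]
    rw [Finset.sum_comm]
    refine Finset.sum_congr rfl fun x _ => ?_
    rw [Finset.sum_comm]
    have e2 : ∀ y, ∑ k, v i x * v i y * (U x k * U y k) = v i x * v i y * (if x = y then 1 else 0) := by
      intro y
      rw [← Finset.mul_sum]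
      have := congrFun (congrFun hU1 x) y
      simp only [Matrix.mul_apply, Matrix.transpose_apply, Matrix.one_apply] at this
      rw [this]
    simp only [e2, mul_ite, mul_one, mul_zero, Finset.sum_ite_eq, Finset.mem_univ, if_true]
    ring
  have hpk : ∀ k, p k ^ N ≤ ∑ i, c k i * Real.exp (-(s * μ i)) := by
    intro k
    have hp0 : 0 ≤ p k := by rw [← hray k]; exact hpos _
    have hp1 : p k ≤ ∑ i, c k i * Real.exp (-(κ * μ i)) := by
      rw [← hray k, hE, hnorm]
      have a1 := mul_le_mul_of_nonneg_left (h2 (fun x => U x k)) hκ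
      have a2 : ∑ i, c k i * (1 - κ * μ i) ≤ ∑ i, c k i * Real.exp (-(κ * μ i)) :=
        Finset.sum_le_sum fun i _ => mul_le_mul_of_nonneg_left
          (by have := Real.add_one_le_exp (-(κ * μ i)); linarith) (hc0 k i)
      have a3 : ∑ i, c k i * (1 - κ * μ i) = 1 - κ * ∑ i, μ i * c k i := by
        simp only [mul_sub, mul_one, Finset.sum_sub_distrib, hc1, Finset.mul_sum]
        congr 1
        exact Finset.sum_congr rfl fun i _ => by ring
      simp only [hc] at a2 a3 ⊢
      linarith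
    calc p k ^ N ≤ (∑ i, c k i * Real.exp (-(κ * μ i))) ^ N := pow_le_pow_left₀ hp0 hp1 N
      _ ≤ ∑ i, c k i * Real.exp (-(κ * μ i)) ^ N :=
          Real.pow_arith_mean_le_arith_mean_pow _ _ _ (fun i _ => hc0 k i) (hc1 k)
            (fun i _ => (Real.exp_pos _).le) N
      _ ≤ ∑ i, c k i * Real.exp (-(s * μ i)) := by
          refine Finset.sum_le_sum fun i _ => mul_le_mul_of_nonneg_left ?_ (hc0 k i)
          rw [← Real.exp_nat_mul]
          exact Real.exp_le_exp.mpr (by nlinarith [h0 i])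
  rw [htr]
  refine le_trans (Finset.sum_le_sum fun k _ => hpk k) (le_trans (le_of_eq ?_) h3)
  rw [Finset.sum_comm]
  refine Finset.sum_congr rfl fun i _ => ?_
  rw [← Finset.sum_mul, hc2]

end Pool.Agent.P.MP_78d095_pr
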