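import Pool.Agent.P.MP_78d095_pr.Mix

set_option autoImplicit false

namespace Pool.Agent.P.MP_78d095_pr

open Finset Matrix

/-- Hamming weight of a binary vector. -/
def wt {ι : Type} [Fintype ι] (c : ι → ZMod 2) : ℕ := ∑ i, (c i).val

section weight
variable {ι : Type} [Fintype ι] [DecidableEq ι]

omit [DecidableEq ι] in
theorem wt_add_le (c c' : ι → ZMod 2) : wt (c + c') ≤ wt c + wt c' := by
  simp only [wt, ← Finset.sum_add_distrib, Pi.add_apply]
  exact Finset.sum_le_sum fun i _ => ZMod.val_add_le _ _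

theorem wt_single (i : ι) : wt (Pi.single i (1 : ZMod 2)) = 1 := by
  simp only [wt]
  rw [Finset.sum_eq_single i]
  · simp only [Pi.single_eq_same]; rfl
  · intro j _ hj
    simp [Pi.single_eq_of_ne hj]
  · simp

theorem wt_add_single (c : ι → ZMod 2) (i : ι) (hi : c i = 0) :
    wt (c + Pi.single i 1) = wt c + 1 := by
  rw [← wt_single i]
  simp only [wt, ← Finset.sum_add_distrib, Pi.add_apply]
  refine Finset.sum_congr rfl fun j _ => ?_
  by_cases hj : j = i
  · subst hj
    simp [hi]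
  · simp [Pi.single_eq_of_ne hj]

theorem sum_pow_wt (ρ : ℝ) : ∑ c : ι → ZMod 2, ρ ^ wt c = (1 + ρ) ^ Fintype.card ι := by
  simp only [wt, ← Finset.prod_pow_eq_pow_sum]
  have h := Finset.prod_univ_sum (fun _ : ι => (Finset.univ : Finset (ZMod 2)))
    (fun _ a => ρ ^ a.val)
  rw [Fintype.piFinset_univ] at h
  rw [← h]
  have : ∑ a : ZMod 2, ρ ^ a.val = 1 + ρ := by
    have : ∑ a : Fin 2, ρ ^ a.val = 1 + ρ := by simp [Fin.sum_univ_two]
    exact this
  simp [this]

theorem ball_le (m : ℕ) : ∑ c : ι → ZMod 2, (if wt c ≤ m then (1:ℝ) else 0)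
    ≤ 8 ^ m * (9 / 8) ^ Fintype.card ι := by
  rw [show (9 / 8 : ℝ) = 1 + 1 / 8 by norm_num, ← sum_pow_wt, Finset.mul_sum]
  refine Finset.sum_le_sum fun c _ => ?_
  split_ifs with h
  · rw [_root_.one_div_pow, mul_one_div, le_div_iff₀ (by positivity), one_mul]
    exact pow_le_pow_right₀ (by norm_num) h
  · positivity

end weight

theorem numeric_ball (k : ℕ) :
    (8:ℝ) ^ (2 * k + 1) * (9 / 8) ^ (32 * k) ≤ 8 / 16 ^ k * 2 ^ (16 * k) := by
  have h : (8:ℝ) ^ 2 * (9 / 8) ^ 32 ≤ 2 ^ 16 / 16 := by norm_num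
  have h2 := pow_le_pow_left₀ (by positivity) h k
  rw [mul_pow, div_pow (2 ^ 16), ← pow_mul, ← pow_mul, ← pow_mul] at h2
  rw [pow_succ]
  have : 8 / 16 ^ k * 2 ^ (16 * k) = (2:ℝ) ^ (16 * k) / 16 ^ k * 8 := by ring
  rw [this]
  nlinarith

theorem sum_fiber {n : ℕ} (x : Fin n → ZMod 2) (hx : x ≠ 0) (F : (Fin n → ZMod 2) → ℝ) :
    (2:ℝ) ^ n * ∑ A : Matrix (Fin n) (Fin n) (ZMod 2), F (A *ᵥ x)
      = Fintype.card (Matrix (Fin n) (Fin n) (ZMod 2)) * ∑ y, F y := by
  obtain ⟨i, hi⟩ : ∃ i, x i ≠ 0 := by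
    by_contra h
    push Not at h
    exact hx (funext h)
  have hi1 : x i = 1 := by
    revert hi
    generalize x i = a
    revert a
    decide
  have h1 : ∀ v : Fin n → ZMod 2, ∑ A : Matrix (Fin n) (Fin n) (ZMod 2), F (A *ᵥ x)
      = ∑ A : Matrix (Fin n) (Fin n) (ZMod 2), F (A *ᵥ x + v) := by
    intro v
    rw [← Equiv.sum_comp (Equiv.addRight (Matrix.vecMulVec v (Pi.single i 1)))]
    refine Finset.sum_congr rfl fun A _ => ?_
    simp only [Equiv.coe_addRight, Matrix.add_mulVec]
    congr 2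
    ext j
    simp [Matrix.mulVec, dotProduct, Matrix.vecMulVec_apply, Pi.single_apply, hi1]
  have h2 : ∑ v : Fin n → ZMod 2, ∑ A : Matrix (Fin n) (Fin n) (ZMod 2), F (A *ᵥ x)
      = ∑ v : Fin n → ZMod 2, ∑ A : Matrix (Fin n) (Fin n) (ZMod 2), F (A *ᵥ x + v) :=
    Finset.sum_congr rfl fun v _ => h1 v
  rw [Finset.sum_const, Finset.card_univ, nsmul_eq_mul, Finset.sum_comm] at h2
  simp only [Fintype.card_fun, ZMod.card, Fintype.card_fin, Nat.cast_pow, Nat.cast_ofNat] at h2
  rw [h2]
  have h3 : ∀ A : Matrix (Fin n) (Fin n) (ZMod 2), ∑ v, F (A *ᵥ x + v) = ∑ y, F y := fun A =>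
    Equiv.sum_comp (Equiv.addLeft (A *ᵥ x)) F
  simp only [h3, Finset.sum_const, Finset.card_univ, nsmul_eq_mul]

theorem exists_good_matrix (k : ℕ) (hk : 2 ≤ k) :
    ∃ A : Matrix (Fin (16 * k)) (Fin (16 * k)) (ZMod 2), ∀ x : Fin (16 * k) → ZMod 2, x ≠ 0 →
      2 * k + 2 ≤ wt x + wt (A *ᵥ x) ∧ 2 * k + 2 ≤ wt x + wt (A.transpose *ᵥ x) := by
  set n := 16 * k with hn
  let bad : (Fin n → ZMod 2) → (Fin n → ZMod 2) → ℝ :=
    fun x y => if wt x + wt y ≤ 2 * k + 1 then 1 else 0
  have hbad0 : ∀ x y, 0 ≤ bad x y := fun x y => by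
    simp only [bad]; split_ifs <;> norm_num
  have hB : ∑ x, ∑ y, bad x y ≤ 8 / 16 ^ k * 2 ^ n := by
    refine le_trans ?_ (numeric_ball k)
    have h1 := ball_le (ι := Fin n ⊕ Fin n) (2 * k + 1)
    rw [Fintype.card_sum, Fintype.card_fin, show n + n = 32 * k by omega] at h1
    refine le_trans (le_of_eq ?_) h1
    rw [← Fintype.sum_prod_type', ← Equiv.sum_comp (Equiv.sumArrowEquivProdArrow _ _ _)]
    refine Finset.sum_congr rfl fun c _ => ?_
    simp only [bad, wt, Fintype.sum_sum_type, Equiv.sumArrowEquivProdArrow_apply_fst,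
      Equiv.sumArrowEquivProdArrow_apply_snd]
  let g : Matrix (Fin n) (Fin n) (ZMod 2) → ℝ :=
    fun A => ∑ x, if x = 0 then 0 else bad x (A *ᵥ x)
  set cM : ℝ := (Fintype.card (Matrix (Fin n) (Fin n) (ZMod 2)) : ℝ) with hcM
  have hcMpos : 0 < cM := by rw [hcM]; exact_mod_cast Fintype.card_pos
  have hg : (2:ℝ) ^ n * ∑ A, g A ≤ cM * (8 / 16 ^ k * 2 ^ n) := by
    refine le_trans ?_ (mul_le_mul_of_nonneg_left hB hcMpos.le)
    simp only [g]
    rw [Finset.sum_comm, Finset.mul_sum, Finset.mul_sum]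
    refine Finset.sum_le_sum fun x _ => ?_
    split_ifs with hx
    · simp only [Finset.sum_const_zero, mul_zero]
      exact mul_nonneg hcMpos.le (Finset.sum_nonneg fun y _ => hbad0 x y)
    · exact le_of_eq (sum_fiber x hx (bad x))
  have hg1 : ∑ A, g A ≤ cM * (8 / 16 ^ k) := by
    have : (0:ℝ) < 2 ^ n := by positivity
    nlinarith
  have hg2 : ∑ A : Matrix (Fin n) (Fin n) (ZMod 2), g A.transpose = ∑ A, g A :=
    Equiv.sum_comp (Matrix.transposeAddEquiv (Fin n) (Fin n) (ZMod 2)).toEquiv g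
  have hsmall : (8:ℝ) / 16 ^ k ≤ 8 / 16 ^ 2 :=
    div_le_div_of_nonneg_left (by norm_num) (by positivity) (pow_le_pow_right₀ (by norm_num) hk)
  have hex : ∃ A : Matrix (Fin n) (Fin n) (ZMod 2), g A + g A.transpose < 1 := by
    by_contra h
    push Not at h
    have h1 := Finset.sum_le_sum fun A (_ : A ∈ Finset.univ) => h A
    rw [Finset.sum_add_distrib, hg2, Finset.sum_const, Finset.card_univ, nsmul_eq_mul,
      ← hcM] at h1
    nlinarith
  obtain ⟨A, hA⟩ := hex
  have hterm : ∀ (B : Matrix (Fin n) (Fin n) (ZMod 2)) (x : Fin n → ZMod 2),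
      0 ≤ (if x = 0 then 0 else bad x (B *ᵥ x)) := by
    intro B x
    split_ifs
    · exact le_rfl
    · exact hbad0 _ _
  have hg0 : ∀ B, 0 ≤ g B := fun B => Finset.sum_nonneg fun x _ => hterm B x
  have key : ∀ B, g B < 1 → ∀ x : Fin n → ZMod 2, x ≠ 0 → 2 * k + 2 ≤ wt x + wt (B *ᵥ x) := by
    intro B hB x hx
    have h1 := Finset.single_le_sum (f := fun x => if x = 0 then 0 else bad x (B *ᵥ x))
      (fun x _ => hterm B x) (Finset.mem_univ x)
    simp only [hx, if_false] at h1
    by_contra h2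
    have : bad x (B *ᵥ x) = 1 := by
      simp only [bad]
      rw [if_pos (by omega)]
    simp only [g] at hB
    linarith
  exact ⟨A, fun x hx => ⟨key A (by linarith [hg0 A.transpose]) x hx,
    key _ (by linarith [hg0 A]) x hx⟩⟩

/-- Characters of the binary cube. -/
def chi {n : ℕ} (y x : Fin n → ZMod 2) : ℝ := 1 - 2 * ((y ⬝ᵥ x).val : ℝ)

theorem chi_add {n : ℕ} (y x x' : Fin n → ZMod 2) : chi y (x + x') = chi y x * chi y x' := by
  simp only [chi, dotProduct_add]
  generalize y ⬝ᵥ x = a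
  generalize y ⬝ᵥ x' = b
  have h : ∀ a : ZMod 2, a = 0 ∨ a = 1 := by decide
  have h11 : (1 + 1 : ZMod 2) = 0 := by decide
  have hv : (1 : ZMod 2).val = 1 := rfl
  rcases h a with rfl | rfl <;> rcases h b with rfl | rfl <;> simp [h11, hv]
  norm_num

theorem chi_comm {n : ℕ} (y x : Fin n → ZMod 2) : chi y x = chi x y := by
  simp only [chi, dotProduct_comm]

theorem sum_chi {n : ℕ} (x : Fin n → ZMod 2) :
    ∑ y, chi y x = if x = 0 then (2:ℝ) ^ n else 0 := by
  split_ifs with hx
  · simp [hx, chi]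
  · obtain ⟨i, hi⟩ : ∃ i, x i ≠ 0 := by
      by_contra h
      push Not at h
      exact hx (funext h)
    have hi1 : x i = 1 := by
      revert hi
      generalize x i = a
      revert a
      decide
    have h1 : ∑ y, chi y x = ∑ y, chi (y + Pi.single i 1) x :=
      (Equiv.sum_comp (Equiv.addRight (Pi.single i 1)) (fun y => chi y x)).symm
    have h2 : chi x (Pi.single i 1) = -1 := by
      have hv : (1 : ZMod 2).val = 1 := rfl
      simp only [chi, dotProduct_single, hi1, mul_one, hv]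
      norm_num
    simp only [chi_comm _ x, chi_add, h2, mul_neg, mul_one, Finset.sum_neg_distrib] at h1 ⊢
    linarith

theorem add_self_cube {ι : Type} (x : ι → ZMod 2) : x + x = 0 := by
  ext i
  exact CharTwo.add_self_eq_zero _

theorem parseval {n : ℕ} (f : (Fin n → ZMod 2) → ℝ) :
    ∑ y, (∑ x, chi y x * f x) ^ 2 = 2 ^ n * ∑ x, f x ^ 2 := by
  have e : ∀ y, (∑ x, chi y x * f x) ^ 2 = ∑ x, ∑ x', chi y (x + x') * (f x * f x') := by
    intro y
    rw [sq, Finset.sum_mul_sum]
    refine Finset.sum_congr rfl fun x _ => Finset.sum_congr rfl fun x' _ => ?_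
    rw [chi_add]
    ring
  simp only [e]
  rw [Finset.sum_comm, Finset.mul_sum]
  refine Finset.sum_congr rfl fun x _ => ?_
  rw [Finset.sum_comm]
  simp only [← Finset.sum_mul, sum_chi]
  have h : ∀ x', (x + x' = 0) ↔ x = x' := by
    intro x'
    constructor
    · intro h
      have := add_self_cube x'
      rw [← h] at this
      exact (add_right_cancel this).symm
    · rintro rfl
      exact add_self_cube x
  simp only [h, ite_mul, zero_mul, Finset.sum_ite_eq, Finset.mem_univ, if_true]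
  ring

theorem poincare_cube {n : ℕ} {ι : Type} [Fintype ι] (s : ι → Fin n → ZMod 2) (δ : ℕ)
    (hs : ∀ y : Fin n → ZMod 2, y ≠ 0 → δ ≤ ∑ i, (y ⬝ᵥ s i).val) (f : (Fin n → ZMod 2) → ℝ) :
    4 * δ * (∑ x, f x ^ 2 - (∑ x, f x) ^ 2 / 2 ^ n) ≤ ∑ x, ∑ i, (f x - f (x + s i)) ^ 2 := by
  have h2 : (0:ℝ) < 2 ^ n := by positivity
  set F : (Fin n → ZMod 2) → ℝ := fun y => ∑ x, chi y x * f x with hF
  have hshift : ∀ y i, ∑ x, chi y x * (f x - f (x + s i)) = 2 * ((y ⬝ᵥ s i).val : ℝ) * F y := by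
    intro y i
    simp only [mul_sub, Finset.sum_sub_distrib]
    have : ∑ x, chi y x * f (x + s i) = chi y (s i) * F y := by
      rw [← Equiv.sum_comp (Equiv.addRight (s i))]
      simp only [Equiv.coe_addRight, add_assoc, add_self_cube, add_zero, chi_add, hF,
        Finset.mul_sum]
      exact Finset.sum_congr rfl fun x _ => by ring
    rw [this]
    simp only [hF, chi]
    ring
  have hval : ∀ a : ZMod 2, ((a.val : ℝ)) ^ 2 = a.val := by
    intro a
    have h : ∀ a : ZMod 2, a = 0 ∨ a = 1 := by decide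
    have hv : (1 : ZMod 2).val = 1 := rfl
    rcases h a with rfl | rfl <;> simp [hv]
  have hsum : 2 ^ n * ∑ x, ∑ i, (f x - f (x + s i)) ^ 2
      = ∑ y, 4 * (∑ i, ((y ⬝ᵥ s i).val : ℝ)) * F y ^ 2 := by
    rw [Finset.sum_comm, Finset.mul_sum]
    simp only [← parseval, hshift]
    rw [Finset.sum_comm]
    refine Finset.sum_congr rfl fun y _ => ?_
    rw [Finset.mul_sum, Finset.sum_mul]
    refine Finset.sum_congr rfl fun i _ => ?_
    rw [mul_pow, mul_pow, hval]
    ring
  have hF0 : F 0 = ∑ x, f x := by simp [hF, chi]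
  have hlow : ∑ y, 4 * δ * (F y ^ 2 - if y = 0 then F y ^ 2 else 0)
      ≤ ∑ y, 4 * (∑ i, ((y ⬝ᵥ s i).val : ℝ)) * F y ^ 2 := by
    refine Finset.sum_le_sum fun y _ => ?_
    split_ifs with hy
    · have : 0 ≤ ∑ i, ((y ⬝ᵥ s i).val : ℝ) := Finset.sum_nonneg fun i _ => by positivity
      simp only [sub_self, mul_zero]
      positivity
    · have h1 : (δ : ℝ) ≤ ∑ i, ((y ⬝ᵥ s i).val : ℝ) := by exact_mod_cast hs y hy
      nlinarith [sq_nonneg (F y)]
  rw [← Finset.mul_sum, Finset.sum_sub_distrib, Finset.sum_ite_eq', if_pos (Finset.mem_univ _),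
    hF0, ← hsum] at hlow
  have hp := parseval f
  simp only [hF] at hlow
  rw [hp] at hlow
  have : 4 * δ * (∑ x, f x ^ 2 - (∑ x, f x) ^ 2 / 2 ^ n)
      = (4 * δ * (2 ^ n * ∑ x, f x ^ 2 - (∑ x, f x) ^ 2)) / 2 ^ n := by
    field_simp
  rw [this, div_le_iff₀ h2]
  linarith

/-- A transitive expander of degree `32 k` whose ball of radius `k` looks like a cube. -/
structure DirExp (Q : Type) [Fintype Q] (a : Q → Q → ℝ) (l : Q → ℕ) (o : Q) (k : ℕ) : Prop where
  zo : ∀ x y, a x y = 0 ∨ a x y = 1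
  symm : ∀ x y, a x y = a y x
  diag : ∀ x, a x x = 0
  reg : ∀ x, ∑ y, a x y = 32 * k
  trans : Trans a
  lev0 : l o = 0
  lip : ∀ x y, a x y ≠ 0 → l y ≤ l x + 1
  up : ∀ x, l x ≤ k → ∑ y, a x y * (if l y = l x + 1 then 0 else 1) ≤ l x
  card : (Fintype.card Q : ℝ) = 2 ^ (16 * k)
  poin : ∀ f : Q → ℝ, 4 * k * (∑ x, f x ^ 2 - (∑ x, f x) ^ 2 / Fintype.card Q) ≤ form a f
  vol : ∑ x, (if l x < k then (1:ℝ) else 0) ≤ 8 / 16 ^ k * Fintype.card Q

theorem dirExp_of_code (k : ℕ) (hk : 1 ≤ k) {ι : Type} [Fintype ι] [DecidableEq ι]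
    (hι : Fintype.card ι = 32 * k) (s : ι → Fin (16 * k) → ZMod 2)
    (hsurj : ∀ q, ∃ c : ι → ZMod 2, ∑ i, c i • s i = q)
    (hker : ∀ c : ι → ZMod 2, c ≠ 0 → ∑ i, c i • s i = 0 → 2 * k + 2 ≤ wt c)
    (hdual : ∀ y : Fin (16 * k) → ZMod 2, y ≠ 0 → 2 * k + 2 ≤ ∑ i, (y ⬝ᵥ s i).val) :
    ∃ (a : (Fin (16 * k) → ZMod 2) → (Fin (16 * k) → ZMod 2) → ℝ)
      (l : (Fin (16 * k) → ZMod 2) → ℕ), DirExp _ a l 0 k := by
  let S : (ι → ZMod 2) → (Fin (16 * k) → ZMod 2) := fun c => ∑ i, c i • s i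
  have hSadd : ∀ c c', S (c + c') = S c + S c' := by
    intro c c'
    simp only [S, Pi.add_apply, add_smul, Finset.sum_add_distrib]
  have hSs : ∀ i, S (Pi.single i 1) = s i := by
    intro i
    simp only [S]
    rw [Finset.sum_eq_single i]
    · simp
    · intro j _ hj
      simp [Pi.single_eq_of_ne hj]
    · simp
  have hs0 : ∀ i, s i ≠ 0 := by
    intro i hi
    have h1 := hker (Pi.single i 1) (by
      intro h
      have := congrFun h i
      simp at this) (by rw [← hi]; exact hSs i)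
    rw [wt_single] at h1
    omega
  have hinj : ∀ i j, s i = s j → i = j := by
    intro i j hij
    by_contra hne
    have h1 := hker (Pi.single i 1 + Pi.single j 1) (by
      intro h
      have := congrFun h i
      simp [Pi.single_eq_of_ne hne] at this) (by
        have := hSadd (Pi.single i 1) (Pi.single j 1)
        rw [hSs, hSs, hij, add_self_cube] at this
        exact this)
    have h2 := wt_add_le (Pi.single i (1 : ZMod 2)) (Pi.single j 1)
    rw [wt_single, wt_single] at h2
    omega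
  let a : (Fin (16 * k) → ZMod 2) → (Fin (16 * k) → ZMod 2) → ℝ :=
    fun q q' => ∑ i, if q' = q + s i then 1 else 0
  have hasum : ∀ (q : Fin (16 * k) → ZMod 2) (F : (Fin (16 * k) → ZMod 2) → ℝ),
      ∑ q', a q q' * F q' = ∑ i, F (q + s i) := by
    intro q F
    simp only [a, Finset.sum_mul]
    rw [Finset.sum_comm]
    simp
  let l : (Fin (16 * k) → ZMod 2) → ℕ := fun q => sInf {m | ∃ c, S c = q ∧ wt c = m}
  have hl1 : ∀ q, ∃ c, S c = q ∧ wt c = l q := by
    intro q
    obtain ⟨c, hc⟩ := hsurj q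
    exact Nat.sInf_mem (s := {m | ∃ c, S c = q ∧ wt c = m}) ⟨wt c, c, hc, rfl⟩
  have hl2 : ∀ c, l (S c) ≤ wt c := fun c => Nat.sInf_le ⟨c, rfl, rfl⟩
  have hlip : ∀ q i, l (q + s i) ≤ l q + 1 := by
    intro q i
    obtain ⟨c, hc, hw⟩ := hl1 q
    have h1 := hl2 (c + Pi.single i 1)
    rw [hSadd, hSs, hc] at h1
    have h2 := wt_add_le c (Pi.single i 1)
    rw [wt_single] at h2
    omega
  have hcard : (Fintype.card (Fin (16 * k) → ZMod 2) : ℝ) = 2 ^ (16 * k) := by
    simp
  refine ⟨a, l, ?_, ?_, ?_, ?_, ?_, ?_, ?_, ?_, hcard, ?_, ?_⟩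
  · intro x y
    by_cases h : ∃ i, y = x + s i
    · obtain ⟨i, hi⟩ := h
      right
      simp only [a]
      rw [Finset.sum_eq_single i]
      · rw [if_pos hi]
      · intro j _ hj
        rw [if_neg]
        intro h
        rw [hi] at h
        exact hj (hinj _ _ (add_left_cancel h)).symm
      · simp
    · left
      push Not at h
      simp only [a]
      exact Finset.sum_eq_zero fun i _ => if_neg (h i)
  · intro x y
    simp only [a]
    refine Finset.sum_congr rfl fun i _ => ?_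
    have : y = x + s i ↔ x = y + s i := by
      constructor <;> rintro rfl <;> rw [add_assoc, add_self_cube, add_zero]
    simp only [this]
  · intro x
    simp only [a]
    refine Finset.sum_eq_zero fun i _ => if_neg ?_
    intro h
    exact hs0 i (by simpa using h)
  · intro x
    have := hasum x (fun _ => 1)
    simp only [mul_one, Finset.sum_const, Finset.card_univ, hι, nsmul_eq_mul] at this
    rw [this]
    push_cast
    ring
  · intro x y
    refine ⟨Equiv.addRight (x + y), ?_, fun u v => ?_⟩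
    · simp only [Equiv.coe_addRight]
      rw [← add_assoc, add_self_cube, zero_add]
    · simp only [a, Equiv.coe_addRight]
      refine Finset.sum_congr rfl fun i _ => ?_
      have : v + (x + y) = u + (x + y) + s i ↔ v = u + s i := by
        rw [add_right_comm u, add_left_inj]
      simp only [this]
  · have := hl2 0
    simp only [S, Pi.zero_apply, zero_smul, Finset.sum_const_zero, wt, ZMod.val_zero] at this
    omega
  · intro x y hxy
    obtain ⟨i, -, hi⟩ := Finset.exists_ne_zero_of_sum_ne_zero hxy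
    have : y = x + s i := by
      by_contra h
      exact hi (if_neg h)
    rw [this]
    exact hlip x i
  · intro x hx
    rw [hasum]
    obtain ⟨c, hc, hw⟩ := hl1 x
    rw [← hw]
    simp only [wt, Nat.cast_sum]
    refine Finset.sum_le_sum fun i _ => ?_
    have h : ∀ a : ZMod 2, a = 0 ∨ a = 1 := by decide
    rcases h (c i) with h0 | h1
    · rw [if_pos]
      · positivity
      · change l (x + s i) = wt c + 1
        have h1 := hlip x i
        by_contra hne
        obtain ⟨c', hc', hw'⟩ := hl1 (x + s i)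
        have h2 : c + Pi.single i 1 + c' = 0 := by
          by_contra h3
          have h4 := hker _ h3 (by
            change S _ = 0
            rw [hSadd, hSadd, hc, hc', hSs, add_self_cube])
          have h5 := wt_add_le (c + Pi.single i 1) c'
          rw [wt_add_single c i h0] at h5
          omega
        have h3 : c' = c + Pi.single i 1 := by
          have := add_self_cube c'
          rw [← h2] at this
          exact add_right_cancel this
        rw [h3, wt_add_single c i h0] at hw'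
        omega
    · rw [h1]
      have hv : (1 : ZMod 2).val = 1 := rfl
      rw [hv]
      split_ifs <;> norm_num
  · intro f
    have h1 := poincare_cube s (2 * k + 2) hdual f
    simp only [form, hasum, hcard]
    have h2 : 0 ≤ ∑ x, f x ^ 2 - (∑ x, f x) ^ 2 / 2 ^ (16 * k) := by
      have := sq_sum_le_card_mul_sum_sq (s := Finset.univ) (f := f)
      rw [Finset.card_univ, hcard] at this
      rw [sub_nonneg, div_le_iff₀ (by positivity)]
      linarith
    push_cast at h1
    nlinarith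
  · rw [hcard]
    refine le_trans ?_ (numeric_ball k)
    have h1 := ball_le (ι := ι) (2 * k + 1)
    rw [hι] at h1
    refine le_trans ?_ h1
    have h2 : ∀ x, (if l x < k then (1:ℝ) else 0)
        ≤ ∑ c : ι → ZMod 2, if S c = x then (if wt c ≤ 2 * k + 1 then (1:ℝ) else 0) else 0 := by
      intro x
      have hnn : ∀ c : ι → ZMod 2,
          0 ≤ (if S c = x then (if wt c ≤ 2 * k + 1 then (1:ℝ) else 0) else 0) := by
        intro c
        split_ifs <;> norm_num
      split_ifs with hx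
      · obtain ⟨c, hc, hw⟩ := hl1 x
        refine le_trans ?_ (Finset.single_le_sum (fun c _ => hnn c) (Finset.mem_univ c))
        rw [if_pos hc, if_pos (by omega)]
      · exact Finset.sum_nonneg fun c _ => hnn c
    refine le_trans (Finset.sum_le_sum fun x _ => h2 x) (le_of_eq ?_)
    rw [Finset.sum_comm]
    simp

theorem exists_dirExp (k : ℕ) (hk : 2 ≤ k) :
    ∃ (Q : Type) (_ : Fintype Q) (a : Q → Q → ℝ) (l : Q → ℕ) (o : Q), DirExp Q a l o k := by
  obtain ⟨A, hA⟩ := exists_good_matrix k hk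
  let s : Fin (16 * k) ⊕ Fin (16 * k) → Fin (16 * k) → ZMod 2 :=
    Sum.elim (fun i => Pi.single i 1) (fun j i => A i j)
  have hS : ∀ c : Fin (16 * k) ⊕ Fin (16 * k) → ZMod 2,
      ∑ i, c i • s i = (fun i => c (Sum.inl i)) + A *ᵥ (fun j => c (Sum.inr j)) := by
    intro c
    ext i
    simp [s, Fintype.sum_sum_type, Finset.sum_apply, Pi.single_apply, Matrix.mulVec, dotProduct,
      mul_comm]
  obtain ⟨a, l, h⟩ := dirExp_of_code k (by omega) (ι := Fin (16 * k) ⊕ Fin (16 * k))
    (by simp; omega) s (fun q => ⟨Sum.elim q 0, by rw [hS]; simp; exact Matrix.mulVec_zero A⟩) (fun c hc h0 => by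
      rw [hS] at h0
      have h1 : (fun i => c (Sum.inl i)) = A *ᵥ (fun j => c (Sum.inr j)) := by
        have := add_self_cube (A *ᵥ (fun j => c (Sum.inr j)))
        rw [← h0] at this
        exact (add_right_cancel this).symm
      have h2 : (fun j => c (Sum.inr j)) ≠ 0 := by
        intro h2
        rw [h2, Matrix.mulVec_zero] at h1
        apply hc
        ext i
        cases i with
        | inl i => exact congrFun h1 i
        | inr j => exact congrFun h2 j
      have h3 := (hA _ h2).1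
      rw [← h1] at h3
      simp only [wt, Fintype.sum_sum_type] at h3 ⊢
      omega) (fun y hy => by
      have h3 := (hA _ hy).2
      refine le_trans h3 (le_of_eq ?_)
      simp only [wt, Fintype.sum_sum_type, s, Sum.elim_inl, Sum.elim_inr, dotProduct_single,
        mul_one]
      congr 1
      refine Finset.sum_congr rfl fun j _ => ?_
      congr 1
      simp [Matrix.mulVec, dotProduct, mul_comm])
  exact ⟨_, inferInstance, a, l, 0, h⟩

end Pool.Agent.P.MP_78d095_pr
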