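import Pool.Agent.P.MP_78d095_pr.Code

set_option autoImplicit false

namespace Pool.Agent.P.MP_78d095_pr

open Finset

open Classical in
/-- Weights on a base times two lamps; the bit `b` selects the active lamp. -/
noncomputable def comb {P X : Type} (b : P → Bool) (v : P → P → ℝ) (w : X → X → ℝ) :
    P × (X × X) → P × (X × X) → ℝ := fun z z' =>
  (if z.2 = z'.2 then v z.1 z'.1 else 0) +
  (if z.1 = z'.1 then
    (if b z.1 then (if z.2.1 = z'.2.1 then w z.2.2 z'.2.2 else 0)
      else (if z.2.2 = z'.2.2 then w z.2.1 z'.2.1 else 0)) else 0)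

section comb
variable {P X : Type} [Fintype P] [Fintype X]

theorem comb_sum (b : P → Bool) (v : P → P → ℝ) (w : X → X → ℝ) (z : P × (X × X))
    (F : P × (X × X) → ℝ) :
    ∑ z', comb b v w z z' * F z' = ∑ p', v z.1 p' * F (p', z.2) +
      (if b z.1 then ∑ y', w z.2.2 y' * F (z.1, (z.2.1, y'))
        else ∑ y', w z.2.1 y' * F (z.1, (y', z.2.2))) := by
  classical
  simp only [comb, add_mul, Finset.sum_add_distrib]
  congr 1
  · rw [Fintype.sum_prod_type]
    refine Finset.sum_congr rfl fun p' _ => ?_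
    simp
  · rw [Fintype.sum_prod_type_right]
    simp only [ite_mul, zero_mul, Finset.sum_ite_eq, Finset.mem_univ, if_true]
    split_ifs with hb
    · rw [Fintype.sum_prod_type_right]
      simp
    · rw [Fintype.sum_prod_type]
      simp

omit [Fintype P] [Fintype X] in
theorem comb_symm (b : P → Bool) {v : P → P → ℝ} {w : X → X → ℝ} (hv : ∀ p p', v p p' = v p' p)
    (hw : ∀ x y, w x y = w y x) (z z' : P × (X × X)) : comb b v w z z' = comb b v w z' z := by
  classical
  obtain ⟨p, x, y⟩ := z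
  obtain ⟨p', x', y'⟩ := z'
  simp only [comb]
  congr 1
  · simp only [eq_comm (a := (x, y)), hv p p']
  · by_cases hp : p = p'
    · subst hp
      simp only [if_true, eq_comm (a := x), eq_comm (a := y), hw x x', hw y y']
    · rw [if_neg hp, if_neg (Ne.symm hp)]

omit [Fintype P] [Fintype X] in
theorem comb_mono (b : P → Bool) {v v' : P → P → ℝ} {w w' : X → X → ℝ} {c c' : ℝ}
    (hv : ∀ p p', c * v p p' ≤ c' * v' p p') (hw : ∀ x y, c * w x y ≤ c' * w' x y)
    (z z' : P × (X × X)) : c * comb b v w z z' ≤ c' * comb b v' w' z z' := by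
  simp only [comb]
  have := hv z.1 z'.1
  have := hw z.2.1 z'.2.1
  have := hw z.2.2 z'.2.2
  split_ifs <;> linarith

omit [Fintype P] [Fintype X] in
theorem comb_zo (b : P → Bool) {v : P → P → ℝ} {w : X → X → ℝ}
    (hv : ∀ p p', v p p' = 0 ∨ v p p' = 1) (hv0 : ∀ p, v p p = 0)
    (hw : ∀ x y, w x y = 0 ∨ w x y = 1) (z z' : P × (X × X)) :
    comb b v w z z' = 0 ∨ comb b v w z z' = 1 := by
  simp only [comb]
  by_cases hp : z.1 = z'.1
  · rw [← hp, hv0]
    simp only [ite_self, zero_add, if_true]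
    split_ifs
    · exact hw _ _
    · exact Or.inl rfl
    · exact hw _ _
    · exact Or.inl rfl
  · rw [if_neg hp, add_zero]
    split_ifs
    · exact hv _ _
    · exact Or.inl rfl

omit [Fintype P] [Fintype X] in
theorem comb_diag (b : P → Bool) {v : P → P → ℝ} {w : X → X → ℝ}
    (hv0 : ∀ p, v p p = 0) (hw0 : ∀ x, w x x = 0) (z : P × (X × X)) : comb b v w z z = 0 := by
  simp [comb, hv0, hw0]

omit [Fintype P] [Fintype X] in
theorem comb_trans (b : P → Bool) {v : P → P → ℝ} {w : X → X → ℝ} (hw : Trans w)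
    (hv : ∀ p p', ∃ e : P ≃ P, e p = p' ∧ (∀ u u', v (e u) (e u') = v u u') ∧
      ((∀ u, b (e u) = b u) ∨ ∀ u, b (e u) = !b u)) : Trans (comb b v w) := by
  classical
  rintro ⟨p, x, y⟩ ⟨p', x', y'⟩
  obtain ⟨e, hep, hev, heb⟩ := hv p p'
  rcases heb with heb | heb
  · obtain ⟨e1, he1, hw1⟩ := hw x x'
    obtain ⟨e2, he2, hw2⟩ := hw y y'
    refine ⟨Equiv.prodCongr e (Equiv.prodCongr e1 e2), by simp [hep, he1, he2], ?_⟩
    rintro ⟨u, s, t⟩ ⟨u', s', t'⟩
    simp [comb, hev, heb, hw1, hw2]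
  · obtain ⟨e1, he1, hw1⟩ := hw y x'
    obtain ⟨e2, he2, hw2⟩ := hw x y'
    refine ⟨Equiv.prodCongr e ((Equiv.prodComm X X).trans (Equiv.prodCongr e1 e2)),
      by simp [hep, he1, he2], ?_⟩
    rintro ⟨u, s, t⟩ ⟨u', s', t'⟩
    simp only [comb, Equiv.prodCongr_apply, Prod.map_apply, Equiv.trans_apply,
      Equiv.prodComm_apply, Prod.swap_prod_mk, Prod.mk.injEq, EmbeddingLike.apply_eq_iff_eq,
      hev, heb, hw1, hw2, and_comm (a := t = t')]
    cases b u <;> simp

theorem form_comb (b : P → Bool) (v : P → P → ℝ) (w : X → X → ℝ) (f : P × (X × X) → ℝ) :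
    form (comb b v w) f = ∑ y, form v (fun p => f (p, y)) +
      ∑ p, (if b p then ∑ x, form w (fun y => f (p, (x, y)))
        else ∑ y, form w (fun x => f (p, (x, y)))) := by
  simp only [form, comb_sum, Finset.sum_add_distrib, mul_add]
  congr 1
  · rw [Fintype.sum_prod_type_right, Finset.mul_sum]
  · rw [Fintype.sum_prod_type, Finset.mul_sum]
    refine Finset.sum_congr rfl fun p _ => ?_
    split_ifs with hb
    · rw [Fintype.sum_prod_type, Finset.mul_sum]
    · rw [Fintype.sum_prod_type_right, Finset.mul_sum]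

theorem form_perturb {a : X → X → ℝ} {D ε : ℝ} (hε : 0 < ε) (ha0 : ∀ x y, 0 ≤ a x y)
    (hsym : ∀ x y, a x y = a y x) (hreg : ∀ x, ∑ y, a x y = D) (g g' : X → ℝ) :
    form a g ≤ (1 + ε) * form a g' + (1 + 1 / ε) * (2 * D) * ∑ x, (g x - g' x) ^ 2 := by
  have hreg' : ∀ y, ∑ x, a x y = D := fun y => by
    simp only [hsym _ y, hreg]
  have hA : ∑ x, ∑ y, a x y * (g x - g' x) ^ 2 = D * ∑ x, (g x - g' x) ^ 2 := by
    simp only [← Finset.sum_mul, hreg, ← Finset.mul_sum]
  have hB : ∑ x, ∑ y, a x y * (g y - g' y) ^ 2 = D * ∑ x, (g x - g' x) ^ 2 := by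
    rw [Finset.sum_comm]
    simp only [← Finset.sum_mul, hreg', ← Finset.mul_sum]
  have key : ∀ x y, a x y * (g x - g y) ^ 2 ≤ (1 + ε) * (a x y * (g' x - g' y) ^ 2)
      + (1 + 1 / ε) * 2 * (a x y * (g x - g' x) ^ 2 + a x y * (g y - g' y) ^ 2) := by
    intro x y
    set u := g' x - g' y
    set r := g x - g' x
    set r' := g y - g' y
    have e : g x - g y = u + (r - r') := by simp only [u, r, r']; ring
    have h1 : (u + (r - r')) ^ 2 ≤ (1 + ε) * u ^ 2 + (1 + 1 / ε) * (r - r') ^ 2 := by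
      have : (1 + ε) * u ^ 2 + (1 + 1 / ε) * (r - r') ^ 2 - (u + (r - r')) ^ 2
          = (ε * u - (r - r')) ^ 2 / ε := by
        field_simp
        ring
      have h2 : 0 ≤ (ε * u - (r - r')) ^ 2 / ε := by positivity
      linarith
    have h2 : (r - r') ^ 2 ≤ 2 * (r ^ 2 + r' ^ 2) := by nlinarith [sq_nonneg (r + r')]
    have h3 : (1 + 1 / ε) * (r - r') ^ 2 ≤ (1 + 1 / ε) * (2 * (r ^ 2 + r' ^ 2)) :=
      mul_le_mul_of_nonneg_left h2 (by positivity)
    rw [e]
    have := mul_le_mul_of_nonneg_left (h1.trans (add_le_add le_rfl h3)) (ha0 x y)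
    linarith
  have hsum := Finset.sum_le_sum fun x (_ : x ∈ Finset.univ) =>
    Finset.sum_le_sum fun y (_ : y ∈ Finset.univ) => key x y
  simp only [Finset.sum_add_distrib, ← Finset.mul_sum, hA, hB] at hsum
  simp only [form]
  linarith

theorem lamp_compare (b : P → Bool) (σ : P ≃ P) (hσ : ∀ p, b (σ p) = !b p) {a : X → X → ℝ}
    {D ε : ℝ} (hε : 0 < ε) (ha0 : ∀ x y, 0 ≤ a x y)
    (hsym : ∀ x y, a x y = a y x) (hreg : ∀ x, ∑ y, a x y = D) (f : P × (X × X) → ℝ) :
    ∑ p, (∑ y, form a (fun x => f (p, (x, y))) + ∑ x, form a (fun y => f (p, (x, y)))) ≤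
      (2 + ε) * ∑ p, (if b p then ∑ x, form a (fun y => f (p, (x, y)))
        else ∑ y, form a (fun x => f (p, (x, y)))) +
      (1 + 1 / ε) * (2 * D) * ∑ y, ∑ p, (f (p, y) - f (σ p, y)) ^ 2 := by
  set act : P → ℝ := fun p => (if b p then ∑ x, form a (fun y => f (p, (x, y)))
        else ∑ y, form a (fun x => f (p, (x, y)))) with hact
  have key : ∀ p, ∑ y, form a (fun x => f (p, (x, y))) + ∑ x, form a (fun y => f (p, (x, y)))
      ≤ act p + (1 + ε) * act (σ p)
        + (1 + 1 / ε) * (2 * D) * ∑ y, (f (p, y) - f (σ p, y)) ^ 2 := by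
    intro p
    simp only [hact, hσ]
    cases b p
    · simp only [Bool.false_eq_true, if_false, Bool.not_false, if_true]
      have := Finset.sum_le_sum fun x (_ : x ∈ Finset.univ) =>
        form_perturb hε ha0 hsym hreg (fun y => f (p, (x, y))) (fun y => f (σ p, (x, y)))
      simp only [Finset.sum_add_distrib, ← Finset.mul_sum] at this
      rw [Fintype.sum_prod_type]
      linarith
    · simp only [if_true, Bool.not_true, Bool.false_eq_true, if_false]
      have := Finset.sum_le_sum fun y (_ : y ∈ Finset.univ) =>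
        form_perturb hε ha0 hsym hreg (fun x => f (p, (x, y))) (fun x => f (σ p, (x, y)))
      simp only [Finset.sum_add_distrib, ← Finset.mul_sum] at this
      rw [Fintype.sum_prod_type_right]
      linarith
  refine le_trans (Finset.sum_le_sum fun p _ => key p) (le_of_eq ?_)
  simp only [Finset.sum_add_distrib, ← Finset.mul_sum]
  rw [Equiv.sum_comp σ act, Finset.sum_comm]
  ring

theorem sum_sum_sq (u v : X → ℝ) : ∑ x, ∑ y, (u x - v y) ^ 2
    = Fintype.card X * ∑ x, u x ^ 2 + Fintype.card X * ∑ x, v x ^ 2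
      - 2 * (∑ x, u x) * ∑ x, v x := by
  have : ∀ x y, (u x - v y) ^ 2 = u x ^ 2 + v y ^ 2 - 2 * u x * v y := fun x y => by ring
  simp only [this, Finset.sum_add_distrib, Finset.sum_sub_distrib, Finset.sum_const,
    Finset.card_univ, nsmul_eq_mul, ← Finset.mul_sum, ← Finset.sum_mul]

theorem form_complete (h : X → ℝ) : form (fun _ _ => 1) h
    = Fintype.card X * ∑ x, h x ^ 2 - (∑ x, h x) ^ 2 := by
  simp only [form, one_mul, sum_sum_sq]
  ring

theorem blow_one (u v : X → ℝ) :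
    Fintype.card X * ∑ x, (u x - v x) ^ 2 ≤ 2 * ∑ x, ∑ y, (u x - v y) ^ 2 := by
  rw [sum_sum_sq]
  have h1 := sq_sum_le_card_mul_sum_sq (s := Finset.univ) (f := fun x => u x + v x)
  rw [Finset.card_univ, Finset.sum_add_distrib] at h1
  have h2 : ∑ x, (u x - v x) ^ 2 + ∑ x, (u x + v x) ^ 2 = 2 * ∑ x, u x ^ 2 + 2 * ∑ x, v x ^ 2 := by
    simp only [Finset.mul_sum, ← Finset.sum_add_distrib]
    exact Finset.sum_congr rfl fun x _ => by ring
  have h3 : (Fintype.card X : ℝ) * ∑ x, (u x - v x) ^ 2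
      = Fintype.card X * (2 * ∑ x, u x ^ 2 + 2 * ∑ x, v x ^ 2 - ∑ x, (u x + v x) ^ 2) := by
    rw [← h2]; ring
  rw [h3]
  nlinarith [sq_nonneg (∑ x, u x - ∑ x, v x)]

theorem blow_two (u v : X → ℝ) :
    form (fun _ _ => 1) u ≤ ∑ x, ∑ y, (u x - v y) ^ 2 := by
  rw [sum_sum_sq, form_complete]
  have h1 := sq_sum_le_card_mul_sum_sq (s := Finset.univ) (f := v)
  rw [Finset.card_univ] at h1
  nlinarith [sq_nonneg (∑ x, u x - ∑ x, v x)]

theorem move_compare {a : P → P → ℝ} {d : ℝ} (ha0 : ∀ x y, 0 ≤ a x y)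
    (hreg : ∀ x, ∑ y, a x y = d) (g : P × X → ℝ) :
    Fintype.card X / 4 * ∑ z, form a (fun q => g (q, z))
      + d / 4 * ∑ q, form (fun _ _ => 1) (fun z => g (q, z))
      ≤ form (fun p p' : P × X => a p.1 p'.1) g := by
  have e : form (fun p p' : P × X => a p.1 p'.1) g
      = 1 / 2 * ∑ q, ∑ q', a q q' * ∑ z, ∑ z', (g (q, z) - g (q', z')) ^ 2 := by
    simp only [form]
    congr 1
    rw [Fintype.sum_prod_type]
    refine Finset.sum_congr rfl fun q _ => ?_
    simp only [Fintype.sum_prod_type]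
    rw [Finset.sum_comm]
    simp only [Finset.mul_sum]
  have e1 : ∑ z, form a (fun q => g (q, z))
      = 1 / 2 * ∑ q, ∑ q', a q q' * ∑ z, (g (q, z) - g (q', z)) ^ 2 := by
    simp only [form, ← Finset.mul_sum]
    congr 1
    rw [Finset.sum_comm]
    refine Finset.sum_congr rfl fun q _ => ?_
    rw [Finset.sum_comm]
    simp only [Finset.mul_sum]
  have e2 : d * ∑ q, form (fun _ _ => 1) (fun z => g (q, z))
      = ∑ q, ∑ q', a q q' * form (fun _ _ => 1) (fun z => g (q, z)) := by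
    simp only [← Finset.sum_mul, hreg, Finset.mul_sum]
  have key : ∀ q q', Fintype.card X / 8 * (a q q' * ∑ z, (g (q, z) - g (q', z)) ^ 2)
      + 1 / 4 * (a q q' * form (fun _ _ => 1) (fun z => g (q, z)))
      ≤ 1 / 2 * (a q q' * ∑ z, ∑ z', (g (q, z) - g (q', z')) ^ 2) := by
    intro q q'
    have h1 := mul_le_mul_of_nonneg_left
      (blow_one (fun z => g (q, z)) (fun z => g (q', z))) (ha0 q q')
    have h2 := mul_le_mul_of_nonneg_left
      (blow_two (fun z => g (q, z)) (fun z => g (q', z))) (ha0 q q')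
    linarith
  have hsum := Finset.sum_le_sum fun x (_ : x ∈ Finset.univ) =>
    Finset.sum_le_sum fun y (_ : y ∈ Finset.univ) => key x y
  simp only [Finset.sum_add_distrib, ← Finset.mul_sum] at hsum
  rw [e, e1]
  linarith

theorem flip_le (σ : X ≃ X) (h : X → ℝ) :
    ∑ x, (h x - h (σ x)) ^ 2 ≤ 2 * form (fun _ _ => 1) h := by
  simp only [form, one_mul, ← mul_assoc]
  norm_num
  exact Finset.sum_le_sum fun x _ =>
    Finset.single_le_sum (f := fun y => (h x - h y) ^ 2) (fun y _ => sq_nonneg _)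
      (Finset.mem_univ _)

end comb

end Pool.Agent.P.MP_78d095_pr
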