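import Pool.Agent.P.MP_78d095_pr.Step

set_option autoImplicit false

namespace Pool.Agent.P.MP_78d095_pr

open Finset

theorem counterexample (C : ℝ) (hC : 0 < C) :
    ∃ (V : Type) (_ : Fintype V) (G : SimpleGraph V) (a w : V → V → ℝ) (t : ℕ),
      G.Connected ∧ (∀ x y : V, ∃ φ : G ≃g G, φ x = y) ∧
      (∀ x y, G.Adj x y → a x y = 1) ∧ (∀ x y, ¬ G.Adj x y → a x y = 0) ∧
      (∀ x y, w x y = w y x) ∧ (∀ x y, G.Adj x y → 2⁻¹ ≤ w x y ∧ w x y ≤ 2) ∧
      (∀ x y, ¬ G.Adj x y → w x y = 0) ∧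
      ∀ [DecidableEq V], MixP a t ∧ ¬ MixP w ⌈C * (t:ℝ)⌉₊ := by
  obtain ⟨j, hj⟩ := exists_pow_lt_of_lt_one
    (show 0 < 1 / 10 / Real.exp (2 * (33 * C + 1)) by positivity)
    (show (3071 / 3072 : ℝ) < 1 by norm_num)
  obtain ⟨V, hV, a, w, D, φ, o, hS, -, hD⟩ :=
    exists_stage (j + 1) 1 le_rfl 2 (1 / 10) (by norm_num) le_rfl (by norm_num)
  have hD1 : 1 ≤ D := hD.resolve_left (by omega)
  have hD0 : 0 < D := by linarith
  have : Nonempty V := ⟨o⟩
  have ha0 : ∀ x y, 0 ≤ a x y := fun x y => by rcases hS.zo x y with h | h <;> simp [h]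
  let G : SimpleGraph V :=
    { Adj := fun x y => a x y = 1
      symm := ⟨fun x y h => by rw [← hS.symm]; exact h⟩
      loopless := ⟨fun x h => by rw [hS.diag] at h; norm_num at h⟩ }
  have hGa : ∀ x y, ¬ G.Adj x y → a x y = 0 := fun x y h => (hS.zo x y).resolve_right h
  have hexp : Real.exp (1 / 10) ≤ 5 / 4 := by
    have h1 := Real.add_one_le_exp (-(1 / 10))
    rw [Real.exp_neg] at h1
    have h2 := Real.exp_pos (1 / 10)
    have h3 : Real.exp (1 / 10) * (Real.exp (1 / 10))⁻¹ = 1 := mul_inv_cancel₀ h2.ne'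
    nlinarith
  have hmix : ∀ [DecidableEq V], MixP a ⌈32 * D⌉₊ := by
    intro _
    refine mix_of_cert hD0 ha0 hS.symm hS.reg hS.trans
      (hS.cert.mono (fun f => le_rfl) le_rfl hexp) _ ?_
    refine le_trans (le_of_eq ?_) (Nat.le_ceil _)
    norm_num
  refine ⟨V, hV, G, a, w, ⌈32 * D⌉₊, ?_, fun x y => ?_, fun x y h => h, hGa, hS.wsymm,
    fun x y h => ?_, fun x y h => ?_, ?_⟩
  · classical
    exact connected_of_mix G hD0 (fun x y h => (hS.zo x y).resolve_left h) hS.reg hmix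
  · obtain ⟨e, he, hea⟩ := hS.trans x y
    exact ⟨⟨e, fun {u v} => by simp only [G, hea]⟩, he⟩
  · have h1 := hS.wlo x y
    have h2 := hS.whi x y
    have h3 : a x y = 1 := h
    rw [h3] at h1 h2
    constructor <;> linarith
  · have h1 := hS.wlo x y
    have h2 := hS.whi x y
    rw [hGa x y h] at h1 h2
    linarith
  · intro _
    refine ⟨hmix, not_mix (lam := 2 * (1:ℕ)) hD0 (by norm_num)
      (fun x y => by linarith [hS.wlo x y, ha0 x y]) (fun x => ?_) (fun x => ?_) hS.phi0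
      hS.lyap hS.bad o _ ?_⟩
    · have := Finset.sum_le_sum fun y (_ : y ∈ Finset.univ) => hS.wlo x y
      simp only [← Finset.mul_sum, hS.reg] at this
      linarith
    · have := Finset.sum_le_sum fun y (_ : y ∈ Finset.univ) => hS.whi x y
      simp only [← Finset.mul_sum, hS.reg] at this
      linarith
    · have h1 : (⌈32 * D⌉₊ : ℝ) ≤ 33 * D := by
        have := Nat.ceil_lt_add_one (show 0 ≤ 32 * D by positivity)
        linarith
      have h2 : (⌈C * (⌈32 * D⌉₊ : ℝ)⌉₊ : ℝ) ≤ (33 * C + 1) * D := by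
        have := Nat.ceil_lt_add_one (show 0 ≤ C * (⌈32 * D⌉₊ : ℝ) by positivity)
        nlinarith
      have h3 : 2 * ((1:ℕ):ℝ) / D * (⌈C * (⌈32 * D⌉₊ : ℝ)⌉₊ : ℝ) ≤ 2 * (33 * C + 1) := by
        rw [Nat.cast_one, mul_one, div_mul_eq_mul_div, div_le_iff₀ hD0]
        linarith
      have h4 : φ o ≤ 1 / 10 / Real.exp (2 * (33 * C + 1)) := by
        refine hS.gain.trans (le_trans ?_ hj.le)
        exact pow_le_pow_of_le_one (by norm_num) (by norm_num) (Nat.le_succ j)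
      have h5 := mul_le_mul (Real.exp_le_exp.mpr h3) h4 (hS.phi0 o) (Real.exp_pos _).le
      refine h5.trans (le_of_eq ?_)
      field_simp

end Pool.Agent.P.MP_78d095_pr
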