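import Pool.Agent.P.MP_78d095_pr.Cert

set_option autoImplicit false

namespace Pool.Agent.P.MP_78d095_pr

open Finset

/-- The lazy walk attached to a weight function. -/
noncomputable def lazyWalk {V : Type} [Fintype V] [DecidableEq V] (w : V → V → ℝ) :
    Matrix V V ℝ :=
  Matrix.of (fun a b : V => (if a = b then (1:ℝ)/2 else 0) + w a b / (2 * ∑ z : V, w a z))

/-- The walk is mixed in `L²` at time `t`. -/
def MixP {V : Type} [Fintype V] [DecidableEq V] (w : V → V → ℝ) (t : ℕ) : Prop :=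
  ∀ x : V, ∑ y : V, (∑ z : V, w y z) / (∑ a : V, ∑ b : V, w a b) *
    (((lazyWalk w) ^ t) x y / ((∑ z : V, w y z) / (∑ a : V, ∑ b : V, w a b)) - 1) ^ 2 ≤ 1/4

/-- Vertex transitivity of a weight function. -/
def Trans {V : Type} (a : V → V → ℝ) : Prop :=
  ∀ x y : V, ∃ e : V ≃ V, e x = y ∧ ∀ u v, a (e u) (e v) = a u v

variable {V : Type} [Fintype V] [DecidableEq V]

theorem lazy_nonneg {w : V → V → ℝ} (hw : ∀ x y, 0 ≤ w x y) (x y : V) : 0 ≤ lazyWalk w x y := by
  simp only [lazyWalk, Matrix.of_apply]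
  have : 0 ≤ ∑ z, w x z := Finset.sum_nonneg fun z _ => hw x z
  have := hw x y
  split_ifs <;> positivity

theorem lazy_apply_sum {w : V → V → ℝ} (hW : ∀ x, 0 < ∑ z, w x z) (f : V → ℝ) (x : V) :
    ∑ y, lazyWalk w x y * f y = f x + (∑ y, w x y * (f y - f x)) / (2 * ∑ z, w x z) := by
  simp only [lazyWalk, Matrix.of_apply, add_mul, Finset.sum_add_distrib, ite_mul, zero_mul,
    Finset.sum_ite_eq, Finset.mem_univ, if_true, mul_sub, Finset.sum_sub_distrib,
    ← Finset.sum_mul]
  have h := hW x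
  have : ∑ y, w x y / (2 * ∑ z, w x z) * f y = (∑ y, w x y * f y) / (2 * ∑ z, w x z) := by
    rw [Finset.sum_div]
    exact Finset.sum_congr rfl fun y _ => by ring
  rw [this]
  field_simp
  ring

theorem pow_nonneg_entry {P : Matrix V V ℝ} (hP : ∀ x y, 0 ≤ P x y) (t : ℕ) (x y : V) :
    0 ≤ (P ^ t) x y := by
  induction t generalizing x y with
  | zero =>
    simp only [pow_zero, Matrix.one_apply]
    split_ifs <;> norm_num
  | succ t ih =>
    rw [pow_succ, Matrix.mul_apply]
    exact Finset.sum_nonneg fun z _ => mul_nonneg (ih x z) (hP z y)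

theorem pow_apply_le {P : Matrix V V ℝ} (hP : ∀ x y, 0 ≤ P x y) {φ : V → ℝ} {r : ℝ}
    (hr : 0 ≤ r) (h : ∀ x, ∑ y, P x y * φ y ≤ r * φ x) (t : ℕ) (x : V) :
    ∑ y, (P ^ t) x y * φ y ≤ r ^ t * φ x := by
  induction t generalizing x with
  | zero => simp [Matrix.one_apply]
  | succ t ih =>
    rw [pow_succ]
    simp only [Matrix.mul_apply, Finset.sum_mul]
    rw [Finset.sum_comm]
    calc ∑ z, ∑ y, (P ^ t) x z * P z y * φ y = ∑ z, (P ^ t) x z * ∑ y, P z y * φ y := by
          refine Finset.sum_congr rfl fun z _ => ?_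
          rw [Finset.mul_sum]
          exact Finset.sum_congr rfl fun y _ => by ring
      _ ≤ ∑ z, (P ^ t) x z * (r * φ z) :=
          Finset.sum_le_sum fun z _ => mul_le_mul_of_nonneg_left (h z) (pow_nonneg_entry hP t x z)
      _ = r * ∑ z, (P ^ t) x z * φ z := by
          rw [Finset.mul_sum]
          exact Finset.sum_congr rfl fun y _ => by ring
      _ ≤ r * (r ^ t * φ x) := mul_le_mul_of_nonneg_left (ih x) hr
      _ = r ^ (t + 1) * φ x := by ring

theorem pow_row_sum {P : Matrix V V ℝ} (h : ∀ x, ∑ y, P x y = 1) (t : ℕ) (x : V) :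
    ∑ y, (P ^ t) x y = 1 := by
  induction t generalizing x with
  | zero => simp [Matrix.one_apply]
  | succ t ih =>
    rw [pow_succ]
    simp only [Matrix.mul_apply]
    rw [Finset.sum_comm]
    simp only [← Finset.mul_sum, h, mul_one, ih]

theorem lazy_row_sum {w : V → V → ℝ} (hW : ∀ x, 0 < ∑ z, w x z) (x : V) :
    ∑ y, lazyWalk w x y = 1 := by
  have := lazy_apply_sum hW (fun _ => 1) x
  simpa using this

theorem pow_equiv {P : Matrix V V ℝ} (e : V ≃ V) (he : ∀ u v, P (e u) (e v) = P u v) (t : ℕ)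
    (u v : V) : (P ^ t) (e u) (e v) = (P ^ t) u v := by
  induction t generalizing u v with
  | zero => simp [Matrix.one_apply]
  | succ t ih =>
    rw [pow_succ]
    simp only [Matrix.mul_apply]
    rw [← Equiv.sum_comp e]
    simp only [ih, he]

theorem mix_of_cert [Nonempty V] {a : V → V → ℝ} {D s : ℝ} (hD : 0 < D)
    (ha0 : ∀ x y, 0 ≤ a x y) (hsym : ∀ x y, a x y = a y x) (hreg : ∀ x, ∑ y, a x y = D)
    (htr : Trans a) (hC : Cert (form a) s (5 / 4)) (t : ℕ) (ht : s * D ≤ t) : MixP a t := by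
  set P := lazyWalk a with hPdef
  have hP : ∀ x y, P x y = (if x = y then (1:ℝ)/2 else 0) + a x y / (2 * D) := by
    intro x y
    simp only [hPdef, lazyWalk, Matrix.of_apply, hreg]
  have hPs : ∀ x y, P x y = P y x := by
    intro x y
    rw [hP, hP, hsym x y]
    simp only [eq_comm]
  have hreg' : ∀ y, ∑ x, a x y = D := fun y => by
    simp only [hsym _ y, hreg]
  have hquad : ∀ f : V → ℝ, ∑ x, ∑ y, f x * P x y * f y
      = (1 / 2) * ∑ x, f x ^ 2 + (∑ x, ∑ y, a x y * (f x * f y)) / (2 * D) := by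
    intro f
    simp only [hP, mul_add, add_mul, Finset.sum_add_distrib, mul_ite, ite_mul, mul_zero,
      zero_mul, Finset.sum_ite_eq, Finset.mem_univ, if_true]
    congr 1
    · rw [Finset.mul_sum]
      exact Finset.sum_congr rfl fun x _ => by ring
    · rw [Finset.sum_div]
      refine Finset.sum_congr rfl fun x _ => ?_
      rw [Finset.sum_div]
      exact Finset.sum_congr rfl fun y _ => by ring
  have hA : ∀ f : V → ℝ, ∑ x, ∑ y, a x y * f x ^ 2 = D * ∑ x, f x ^ 2 := by
    intro f
    simp only [← Finset.sum_mul, hreg, ← Finset.mul_sum]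
  have hB : ∀ f : V → ℝ, ∑ x, ∑ y, a x y * f y ^ 2 = D * ∑ x, f x ^ 2 := by
    intro f
    rw [Finset.sum_comm]
    simp only [← Finset.sum_mul, hreg', ← Finset.mul_sum]
  have hsq : ∀ (f : V → ℝ) (c : ℝ), c ^ 2 = 1 → ∑ x, ∑ y, a x y * (f x + c * f y) ^ 2
      = 2 * D * ∑ x, f x ^ 2 + 2 * c * ∑ x, ∑ y, a x y * (f x * f y) := by
    intro f c hc
    have : ∀ x y, a x y * (f x + c * f y) ^ 2
        = a x y * f x ^ 2 + a x y * f y ^ 2 + 2 * c * (a x y * (f x * f y)) := by
      intro x y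
      have : (f x + c * f y) ^ 2 = f x ^ 2 + c ^ 2 * f y ^ 2 + 2 * c * (f x * f y) := by ring
      rw [this, hc]
      ring
    simp only [this, Finset.sum_add_distrib, hA, hB, ← Finset.mul_sum]
    ring
  have htrace : (P ^ (2 * t)).trace ≤ 5 / 4 := by
    refine trace_pow_le P hPs (κ := 1 / (2 * D)) (by positivity) hC (fun f => ?_) (fun f => ?_)
      _ ?_
    · rw [hquad]
      have := hsq f (-1) (by norm_num)
      simp only [neg_mul, one_mul, ← sub_eq_add_neg] at this
      simp only [form, this]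
      field_simp
      ring
    · rw [hquad]
      have h1 := hsq f 1 (by norm_num)
      have h2 : 0 ≤ ∑ x, ∑ y, a x y * (f x + 1 * f y) ^ 2 :=
        Finset.sum_nonneg fun x _ => Finset.sum_nonneg fun y _ =>
          mul_nonneg (ha0 x y) (sq_nonneg _)
      have h3 : (1 / 2) * ∑ x, f x ^ 2 + (∑ x, ∑ y, a x y * (f x * f y)) / (2 * D)
          = (∑ x, ∑ y, a x y * (f x + 1 * f y) ^ 2) / (4 * D) := by
        rw [h1]
        field_simp
        ring
      rw [h3]
      positivity
    · push_cast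
      rw [show 2 * (t:ℝ) * (1 / (2 * D)) = t / D by field_simp, le_div_iff₀ hD]
      exact ht
  set n : ℝ := (Fintype.card V : ℝ) with hn
  have hnpos : 0 < n := by
    rw [hn]; exact_mod_cast Fintype.card_pos
  intro x
  have hdiag : ∀ y, (P ^ (2 * t)) y y = (P ^ (2 * t)) x x := by
    intro y
    obtain ⟨e, hex, he⟩ := htr x y
    rw [← hex]
    refine pow_equiv e (fun u v => ?_) _ _ _
    rw [hP, hP, he]
    simp
  have htr2 : (P ^ (2 * t)).trace = n * (P ^ (2 * t)) x x := by
    simp only [Matrix.trace, Matrix.diag, hdiag, Finset.sum_const, Finset.card_univ,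
      nsmul_eq_mul, hn]
  have hPt : ∀ (k : ℕ) (u v : V), (P ^ k) u v = (P ^ k) v u := by
    intro k u v
    have h1 : P.transpose = P := by
      ext i j
      simp [Matrix.transpose_apply, hPs j i]
    have h2 : (P ^ k).transpose = P ^ k := by rw [Matrix.transpose_pow, h1]
    conv_lhs => rw [← h2]
    rfl
  have hsq2 : (P ^ (2 * t)) x x = ∑ y, (P ^ t) x y ^ 2 := by
    rw [two_mul, pow_add, Matrix.mul_apply]
    refine Finset.sum_congr rfl fun y _ => ?_
    rw [hPt t y x]
    ring
  have hrow : ∑ y, (P ^ t) x y = 1 :=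
    pow_row_sum (lazy_row_sum (fun z => by rw [hreg]; exact hD)) t x
  have hpi : ∀ y, (∑ z : V, a y z) / (∑ u : V, ∑ v : V, a u v) = 1 / n := by
    intro y
    simp only [hreg, Finset.sum_const, Finset.card_univ, nsmul_eq_mul, ← hn]
    field_simp
  simp only [hpi, ← hPdef]
  have : ∀ y, 1 / n * ((P ^ t) x y / (1 / n) - 1) ^ 2
      = n * (P ^ t) x y ^ 2 - 2 * (P ^ t) x y + 1 / n := by
    intro y
    field_simp
    ring
  simp only [this, Finset.sum_add_distrib, Finset.sum_sub_distrib, ← Finset.mul_sum, hrow,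
    Finset.sum_const, Finset.card_univ, nsmul_eq_mul, ← hn, ← hsq2]
  rw [htr2] at htrace
  have : n * (1 / n) = 1 := by field_simp
  linarith

theorem connected_of_mix [Nonempty V] (G : SimpleGraph V) {a : V → V → ℝ} {D : ℝ} (hD : 0 < D)
    (hG : ∀ x y, a x y ≠ 0 → G.Adj x y) (hreg : ∀ x, ∑ y, a x y = D) {t : ℕ}
    (h : MixP a t) : G.Connected := by
  classical
  set n : ℝ := (Fintype.card V : ℝ) with hn
  have hnpos : 0 < n := by
    rw [hn]; exact_mod_cast Fintype.card_pos
  have hpi : ∀ y, (∑ z : V, a y z) / (∑ u : V, ∑ v : V, a u v) = 1 / n := by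
    intro y
    simp only [hreg, Finset.sum_const, Finset.card_univ, nsmul_eq_mul, ← hn]
    field_simp
  have hreach : ∀ (k : ℕ) (x y : V), (lazyWalk a ^ k) x y ≠ 0 → G.Reachable x y := by
    intro k
    induction k with
    | zero =>
      intro x y hxy
      simp only [pow_zero, Matrix.one_apply, ne_eq, ite_eq_right_iff, one_ne_zero, imp_false,
        not_not] at hxy
      rw [hxy]
    | succ k ih =>
      intro x y hxy
      rw [pow_succ, Matrix.mul_apply] at hxy
      obtain ⟨z, -, hz⟩ := Finset.exists_ne_zero_of_sum_ne_zero hxy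
      have h1 := ih x z (left_ne_zero_of_mul hz)
      have h2 := right_ne_zero_of_mul hz
      by_cases hzy : z = y
      · rw [← hzy]; exact h1
      · refine h1.trans (hG z y ?_).reachable
        intro h0
        apply h2
        simp [lazyWalk, hzy, h0]
  have hsmall : ∀ x : V, ∑ y, (if G.Reachable x y then (0:ℝ) else 1 / n) ≤ 1 / 4 := by
    intro x
    refine le_trans (Finset.sum_le_sum fun y _ => ?_) (h x)
    rw [hpi]
    split_ifs with hr
    · positivity
    · have : (lazyWalk a ^ t) x y = 0 := by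
        by_contra h0
        exact hr (hreach t x y h0)
      rw [this]
      simp
  refine ⟨fun x y => ?_⟩
  by_contra hxy
  have h1 : ∑ _z : V, 1 / n ≤ ∑ z, ((if G.Reachable x z then (0:ℝ) else 1 / n)
      + (if G.Reachable y z then (0:ℝ) else 1 / n)) := by
    refine Finset.sum_le_sum fun z _ => ?_
    have : 0 ≤ 1 / n := by positivity
    split_ifs with h1 h2 h2
    · exact absurd (h1.trans h2.symm) hxy
    all_goals linarith
  rw [Finset.sum_add_distrib] at h1
  simp only [Finset.sum_const, Finset.card_univ, nsmul_eq_mul, ← hn] at h1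
  have : n * (1 / n) = 1 := by field_simp
  linarith [hsmall x, hsmall y]

theorem not_mix {w : V → V → ℝ} {D lam : ℝ} (hD : 0 < D) (hlam : 0 ≤ lam)
    (hw : ∀ x y, 0 ≤ w x y) (hlo : ∀ x, D / 2 ≤ ∑ y, w x y) (hhi : ∀ x, ∑ y, w x y ≤ 2 * D)
    {φ : V → ℝ} (hφ : ∀ x, 0 ≤ φ x) (hL : ∀ x, ∑ y, w x y * (φ y - φ x) ≤ lam * φ x)
    (hbad : ∑ x, (if φ x < 1 then (1:ℝ) else 0) ≤ (1 / 10) * Fintype.card V)
    (o : V) (T : ℕ) (hT : Real.exp (lam / D * T) * φ o ≤ 1 / 10) : ¬ MixP w T := by
  intro h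
  have hW : ∀ x, 0 < ∑ z, w x z := fun x => lt_of_lt_of_le (by positivity) (hlo x)
  set P := lazyWalk w with hP
  have hP0 : ∀ x y, 0 ≤ P x y := lazy_nonneg hw
  have hstep : ∀ x, ∑ y, P x y * φ y ≤ (1 + lam / D) * φ x := by
    intro x
    rw [lazy_apply_sum hW]
    have h1 : (∑ y, w x y * (φ y - φ x)) / (2 * ∑ z, w x z) ≤ lam / D * φ x := by
      rw [div_le_iff₀ (by have := hW x; positivity)]
      have h2 : lam * φ x ≤ lam / D * φ x * (2 * ∑ z, w x z) := by
        have h3 : lam / D * φ x * D ≤ lam / D * φ x * (2 * ∑ z, w x z) :=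
          mul_le_mul_of_nonneg_left (by linarith [hlo x]) (by have := hφ x; positivity)
        have h4 : lam / D * φ x * D = lam * φ x := by field_simp
        linarith
      exact (hL x).trans h2
    linarith
  have hpow := pow_apply_le hP0 (by positivity) hstep T o
  have hexp : (1 + lam / D) ^ T ≤ Real.exp (lam / D * T) := by
    rw [mul_comm, Real.exp_nat_mul]
    exact pow_le_pow_left₀ (by positivity) (by linarith [Real.add_one_le_exp (lam / D)]) T
  have hgood : ∑ y, (if φ y < 1 then 0 else (P ^ T) o y) ≤ 1 / 10 := by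
    refine le_trans (Finset.sum_le_sum fun y _ => ?_)
      (hpow.trans ((mul_le_mul_of_nonneg_right hexp (hφ o)).trans hT))
    have := pow_nonneg_entry hP0 T o y
    split_ifs with h1
    · exact mul_nonneg this (hφ y)
    · nlinarith [not_lt.mp h1]
  have hrow : ∑ y, (P ^ T) o y = 1 := pow_row_sum (lazy_row_sum hW) T o
  have : Nonempty V := ⟨o⟩
  set n : ℝ := (Fintype.card V : ℝ) with hn
  have hnpos : 0 < n := by
    rw [hn]; exact_mod_cast Fintype.card_pos
  have htot : n * (D / 2) ≤ ∑ a : V, ∑ b : V, w a b := by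
    have := Finset.sum_le_sum fun a (_ : a ∈ Finset.univ) => hlo a
    simpa [hn] using this
  have htpos : 0 < ∑ a : V, ∑ b : V, w a b := lt_of_lt_of_le (by positivity) htot
  set π : V → ℝ := fun y => (∑ z : V, w y z) / (∑ a : V, ∑ b : V, w a b) with hπ
  have hπ0 : ∀ y, 0 < π y := fun y => div_pos (hW y) htpos
  have hπ1 : ∀ y, π y ≤ 4 / n := by
    intro y
    simp only [hπ]
    rw [div_le_div_iff₀ htpos hnpos]
    nlinarith [hhi y]
  have key : ∀ y, 2 * (P ^ T) o y - 2 * (if φ y < 1 then 0 else (P ^ T) o y)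
      - 12 / n * (if φ y < 1 then (1:ℝ) else 0) ≤ π y * ((P ^ T) o y / π y - 1) ^ 2 := by
    intro y
    have h0 := hπ0 y
    split_ifs with h1
    · have e : (P ^ T) o y = π y * ((P ^ T) o y / π y) := by field_simp
      set z := (P ^ T) o y / π y
      have h2 := hπ1 y
      have h3 : 12 / n = 3 * (4 / n) := by ring
      rw [e, h3]
      nlinarith [mul_nonneg h0.le (sq_nonneg (z - 2))]
    · have : 0 ≤ π y * ((P ^ T) o y / π y - 1) ^ 2 := by positivity
      linarith
  have hsum := (Finset.sum_le_sum fun y (_ : y ∈ Finset.univ) => key y).trans (h o)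
  simp only [Finset.sum_sub_distrib, ← Finset.mul_sum, hrow] at hsum
  have h5 : 12 / n * ∑ x, (if φ x < 1 then (1:ℝ) else 0) ≤ 12 / n * ((1 / 10) * n) :=
    mul_le_mul_of_nonneg_left hbad (by positivity)
  have h6 : 12 / n * ((1 / 10) * n) = 6 / 5 := by field_simp; norm_num
  linarith

end Pool.Agent.P.MP_78d095_pr
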