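import Pool.Agent.P.MP_78d095_pr.Comb

set_option autoImplicit false

namespace Pool.Agent.P.MP_78d095_pr

open Finset

/-- sign of a bit -/
def sg (b : Bool) : ℝ := if b then -1 else 1

/-- strength of the bias at level `m` -/
noncomputable def tt (k m : ℕ) : ℝ := ((k - m : ℕ) : ℝ) / (2 * k)

/-- radial profile of the test function -/
noncomputable def al (k m : ℕ) : ℝ :=
  1 - ((k - m : ℕ) : ℝ) * (((k - m : ℕ) : ℝ) - 1) / (1536 * k ^ 2)

theorem tt_nonneg (k m : ℕ) : 0 ≤ tt k m := by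
  unfold tt; positivity

theorem tt_le (k m : ℕ) : tt k m ≤ 1 / 2 := by
  unfold tt
  rcases Nat.eq_zero_or_pos k with rfl | hk
  · simp
  · have h1 : ((k - m : ℕ) : ℝ) ≤ k := by exact_mod_cast Nat.sub_le k m
    have h2 : (0:ℝ) < k := by exact_mod_cast hk
    rw [div_le_iff₀ (by positivity)]
    linarith

theorem nat_mul_pred_mono {x y : ℕ} (h : x ≤ y) : (x:ℝ) * (x - 1) ≤ y * (y - 1) := by
  rcases h.eq_or_lt with rfl | h
  · exact le_rfl
  · have h1 : (x:ℝ) + 1 ≤ y := by exact_mod_cast h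
    have h2 : (0:ℝ) ≤ x := by positivity
    nlinarith

theorem al_mono (k : ℕ) {m m' : ℕ} (h : m ≤ m') : al k m ≤ al k m' := by
  unfold al
  have := nat_mul_pred_mono (x := k - m') (y := k - m) (by omega)
  have := div_le_div_of_nonneg_right this (show (0:ℝ) ≤ 1536 * k ^ 2 by positivity)
  linarith

theorem al_far {k m : ℕ} (h : k ≤ m) : al k m = 1 := by
  unfold al
  rw [Nat.sub_eq_zero_of_le h]
  simp

theorem al_le (k m : ℕ) : al k m ≤ 1 := by
  rw [← al_far (k := k) (m := max k m) (le_max_left _ _)]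
  exact al_mono k (le_max_right _ _)

theorem al_zero_ge {k : ℕ} (hk : 1 ≤ k) : 1 / 2 ≤ al k 0 := by
  unfold al
  have h2 : (1:ℝ) ≤ k := by exact_mod_cast hk
  have : (k:ℝ) * (k - 1) / (1536 * k ^ 2) ≤ 1 / 2 := by
    rw [div_le_iff₀ (by positivity)]
    nlinarith
  simp only [Nat.sub_zero]
  linarith

theorem al_ge {k : ℕ} (hk : 1 ≤ k) (m : ℕ) : 1 / 2 ≤ al k m :=
  (al_zero_ge hk).trans (al_mono k (Nat.zero_le _))

theorem al_zero_le {k : ℕ} (hk : 2 ≤ k) : al k 0 ≤ 3071 / 3072 := by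
  unfold al
  have h2 : (2:ℝ) ≤ k := by exact_mod_cast hk
  have : 1 / 3072 ≤ (k:ℝ) * (k - 1) / (1536 * k ^ 2) := by
    rw [le_div_iff₀ (by positivity)]
    nlinarith
  simp only [Nat.sub_zero]
  linarith

theorem err_bound {k m : ℕ} (hk : 1 ≤ k) {γ u v : ℝ} (hγ1 : 1 / (32 * k) ≤ γ) (hγ2 : γ ≤ 1)
    (_hu : 0 ≤ u) (hv : 0 ≤ v) (huv : u + v = 32 * k) (hvm : m ≤ k → v ≤ m) :
    u * ((al k (m + 1) - al k m) * (2 + γ) - tt k (m + 1) * γ * al k m)
      + v * (tt k m * γ * al k m) ≤ γ * al k m := by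
  have hk1 : (1:ℝ) ≤ k := by exact_mod_cast hk
  have hγ0 : 0 < γ := lt_of_lt_of_le (by positivity) hγ1
  have hα := al_ge hk m
  rcases le_or_gt k m with h | h
  · rw [al_far h, al_far (h.trans (Nat.le_succ m))]
    simp only [tt, Nat.sub_eq_zero_of_le h, Nat.sub_eq_zero_of_le (h.trans (Nat.le_succ m))]
    simp [hγ0.le]
  · have hv1 : v ≤ k := (hvm h.le).trans (by exact_mod_cast h.le)
    obtain ⟨x, hx⟩ : ∃ x, k - m = x + 1 := ⟨k - m - 1, by omega⟩
    have hx' : k - (m + 1) = x := by omega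
    have hx0 : (0:ℝ) ≤ x := by positivity
    have e1 : al k (m + 1) - al k m = tt k (m + 1) / (384 * k) := by
      simp only [al, tt, hx, hx']
      push_cast
      field_simp
      ring
    have e2 : tt k m = tt k (m + 1) + 1 / (2 * k) := by
      simp only [tt, hx, hx']
      push_cast
      field_simp
    rw [e1, e2]
    have ht := tt_nonneg k (m + 1)
    set t := tt k (m + 1)
    set α := al k m
    have h1 : v * (1 / (2 * k)) ≤ 1 / 2 := by
      rw [mul_one_div, div_le_iff₀ (by positivity)]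
      linarith
    have h2 : u * (t / (384 * k) * (2 + γ)) ≤ t / 4 := by
      have : t / (384 * k) * (2 + γ) ≤ t / (384 * k) * 3 :=
        mul_le_mul_of_nonneg_left (by linarith) (by positivity)
      have h3 : u * (t / (384 * k) * (2 + γ)) ≤ (32 * k) * (t / (384 * k) * 3) :=
        mul_le_mul (by linarith) this (by positivity) (by positivity)
      have h4 : (32 * k) * (t / (384 * k) * 3) = t / 4 := by
        field_simp
        ring
      linarith
    have h3 : 15 / 32 ≤ (u - v) * (γ * α) := by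
      have a1 : 30 * (k:ℝ) ≤ u - v := by linarith
      have a2 : 1 / (32 * k) * (1 / 2) ≤ γ * α := mul_le_mul hγ1 hα (by norm_num) hγ0.le
      have a3 := mul_le_mul a1 a2 (by positivity) (by linarith)
      have a4 : 30 * (k:ℝ) * (1 / (32 * k) * (1 / 2)) = 15 / 32 := by
        field_simp
        ring
      linarith
    have h4 := mul_le_mul_of_nonneg_left h3 ht
    have h5 : 0 ≤ γ * α := by positivity
    have h6 := mul_le_mul_of_nonneg_right h1 h5
    nlinarith

/-- perturbed weights on the base -/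
noncomputable def vw {Q : Type} (M k : ℕ) (a : Q → Q → ℝ) (l : Q → ℕ) :
    Q × (Bool × Fin M) → Q × (Bool × Fin M) → ℝ := fun p p' =>
  a p.1 p'.1 * (1 + (if l p'.1 = l p.1 + 1 then tt k (l p'.1) * sg p'.2.1 else 0)
    + (if l p.1 = l p'.1 + 1 then tt k (l p.1) * sg p.2.1 else 0))

/-- test function on the base -/
noncomputable def psi {Q : Type} (M k : ℕ) (l : Q → ℕ) (γ : ℝ) :
    Q × (Bool × Fin M) → ℝ := fun p => al k (l p.1) * (1 + if p.2.1 then γ else 0)

theorem vw_factor {k m m' : ℕ} (b b' : Bool) :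
    1 / 2 ≤ (1 + (if m' = m + 1 then tt k m' * sg b' else 0)
      + (if m = m' + 1 then tt k m * sg b else 0)) ∧
    (1 + (if m' = m + 1 then tt k m' * sg b' else 0)
      + (if m = m' + 1 then tt k m * sg b else 0)) ≤ 2 := by
  have h1 := tt_nonneg k m
  have h2 := tt_nonneg k m'
  have h3 := tt_le k m
  have h4 := tt_le k m'
  split_ifs with ha hb hb
  · omega
  all_goals
    cases b <;> cases b' <;> (try simp only [sg, if_true, Bool.false_eq_true, if_false]) <;>
      constructor <;> linarith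

theorem lyap_move {Q : Type} [Fintype Q] {a : Q → Q → ℝ} {l : Q → ℕ} {o : Q} {k : ℕ}
    (hQ : DirExp Q a l o k) (hk : 1 ≤ k) (M : ℕ) {γ : ℝ} (hγ1 : 1 / (32 * k) ≤ γ) (hγ2 : γ ≤ 1)
    (p : Q × (Bool × Fin M)) :
    ∑ p', vw M k a l p p' * (psi M k l γ p' - psi M k l γ p)
      ≤ M * al k (l p.1) * γ * (32 * k * sg p.2.1 + 1) := by
  obtain ⟨q, b, i⟩ := p
  have hk1 : (1:ℝ) ≤ k := by exact_mod_cast hk
  have hγ0 : 0 < γ := lt_of_lt_of_le (by positivity) hγ1
  have ha0 : ∀ x y, 0 ≤ a x y := fun x y => by rcases hQ.zo x y with h | h <;> simp [h]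
  set m := l q with hm
  set α := al k m with hα
  have hα0 : 0 ≤ α := le_trans (by norm_num) (al_ge hk m)
  set A := (al k (m + 1) - α) * (2 + γ) - tt k (m + 1) * γ * α with hA
  set B := tt k m * γ * α with hB
  have hM0 : (0:ℝ) ≤ M := by positivity
  have key : ∀ q', ∑ z : Bool × Fin M, vw M k a l (q, b, i) (q', z)
        * (psi M k l γ (q', z) - psi M k l γ (q, b, i))
      ≤ a q q' * (M * α * γ * sg b) + M * A * (a q q' * (1 - if l q' = m + 1 then 0 else 1))
        + M * B * (a q q' * if l q' = m + 1 then 0 else 1) := by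
    intro q'
    rcases hQ.zo q q' with h0 | h1
    · simp [vw, h0]
    have hlip := hQ.lip q q' (by rw [h1]; norm_num)
    rw [Fintype.sum_prod_type]
    simp only [vw, psi, h1, one_mul, Finset.sum_const, Finset.card_univ, Fintype.card_fin,
      nsmul_eq_mul, Fintype.sum_bool, ← hm, ← hα, if_true, Bool.false_eq_true, if_false]
    have ht0 := tt_nonneg k m
    have ht1 := tt_le k m
    by_cases hup : l q' = m + 1
    · have hdn : ¬ m = m + 1 + 1 := by omega
      simp only [hup, if_true, hdn, if_false, hA]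
      have h2 : 0 ≤ al k (m + 1) - α := sub_nonneg.mpr (al_mono k (Nat.le_succ m))
      have h3 := tt_nonneg k (m + 1)
      have h4 : 0 ≤ M * ((al k (m + 1) - α) * tt k (m + 1) * γ) := by positivity
      cases b <;> simp only [sg, if_true, Bool.false_eq_true, if_false] <;> nlinarith
    · have h2 : 0 ≤ α - al k (l q') := sub_nonneg.mpr (al_mono k (by omega))
      simp only [hup, if_false, hB]
      have h5 : 0 ≤ M * (tt k m * γ * α) := by positivity
      by_cases hdn : m = l q' + 1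
      · rw [if_pos hdn]
        cases b <;> simp only [sg, if_true, Bool.false_eq_true, if_false]
        · have h4 : 0 ≤ M * ((1 + tt k m) * (α - al k (l q')) * (2 + γ)) := by positivity
          nlinarith
        · have h6 : 0 ≤ 1 - tt k m := by linarith
          have h4 : 0 ≤ M * ((1 - tt k m) * (α - al k (l q')) * (2 + γ)) := by positivity
          nlinarith
      · rw [if_neg hdn]
        have h4 : 0 ≤ M * ((α - al k (l q')) * (2 + γ)) := by positivity
        cases b <;> simp only [sg, if_true, Bool.false_eq_true, if_false] <;> nlinarith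
  rw [Fintype.sum_prod_type]
  refine le_trans (Finset.sum_le_sum fun q' _ => key q') ?_
  set v := ∑ q', a q q' * (if l q' = m + 1 then (0:ℝ) else 1) with hv
  set u := ∑ q', a q q' * (1 - if l q' = m + 1 then (0:ℝ) else 1) with hu
  have huv : u + v = 32 * k := by
    rw [hu, hv, ← Finset.sum_add_distrib, ← hQ.reg q]
    exact Finset.sum_congr rfl fun q' _ => by ring
  have hu0 : 0 ≤ u := Finset.sum_nonneg fun q' _ => mul_nonneg (ha0 _ _) (by
    split_ifs <;> norm_num)
  have hv0 : 0 ≤ v := Finset.sum_nonneg fun q' _ => mul_nonneg (ha0 _ _) (by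
    split_ifs <;> norm_num)
  have herr := err_bound (m := m) hk hγ1 hγ2 hu0 hv0 huv (fun h => hQ.up q h)
  simp only [Finset.sum_add_distrib, ← Finset.mul_sum, ← Finset.sum_mul, hQ.reg, ← hu, ← hv]
  have := mul_le_mul_of_nonneg_left herr hM0
  rw [← hα, ← hA, ← hB] at this
  nlinarith

/-- All the data carried through the induction. -/
structure Stage (X : Type) [Fintype X] (a w : X → X → ℝ) (D : ℝ) (φ : X → ℝ) (o : X)
    (s lam θ g δ : ℝ) : Prop where
  zo : ∀ x y, a x y = 0 ∨ a x y = 1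
  symm : ∀ x y, a x y = a y x
  diag : ∀ x, a x x = 0
  reg : ∀ x, ∑ y, a x y = D
  trans : Trans a
  wsymm : ∀ x y, w x y = w y x
  wlo : ∀ x y, 1 / 2 * a x y ≤ 1 * w x y
  whi : ∀ x y, 1 * w x y ≤ 2 * a x y
  cert : Cert (form a) s θ
  phi0 : ∀ x, 0 ≤ φ x
  lyap : ∀ x, ∑ y, w x y * (φ y - φ x) ≤ lam * φ x
  gain : φ o ≤ g
  bad : ∑ x, (if φ x < 1 then (1:ℝ) else 0) ≤ δ * Fintype.card X

theorem exp_neg_le {x : ℝ} (hx : 0 < x) : Real.exp (-x) ≤ 1 / x := by
  rw [Real.exp_neg, ← one_div]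
  exact one_div_le_one_div_of_le hx (by linarith [Real.add_one_le_exp x])

theorem cert_step {Q : Type} [Fintype Q] {aQ : Q → Q → ℝ} {l : Q → ℕ} {oQ : Q} {k : ℕ}
    (hQ : DirExp Q aQ l oQ k) {M : ℕ} (hM : 1 ≤ M) {X : Type} [Fintype X] {a : X → X → ℝ}
    {D s ε η : ℝ} (hε : 0 < ε) (hη : 0 < η) (ha0 : ∀ x y, 0 ≤ a x y)
    (hsym : ∀ x y, a x y = a y x) (hreg : ∀ x, ∑ y, a x y = D) (hD : 0 ≤ D)
    (hC : Cert (form a) (s * (1 / (2 + ε))) (Real.exp η)) (hs : 16 ≤ s * M)
    (hk1 : D * (1 + 1 / ε) ≤ 2 * k) (hk2 : M ≤ η * k) :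
    Cert (form (comb (fun p : Q × (Bool × Fin M) => p.2.1) (fun p p' => aQ p.1 p'.1) a)) s
      (Real.exp (4 * η)) := by
  have hM1 : (1:ℝ) ≤ M := by exact_mod_cast hM
  have hk0 : (0:ℝ) < k := by
    by_contra h
    have : η * k ≤ 0 := mul_nonpos_of_nonneg_of_nonpos hη.le (not_lt.mp h)
    linarith
  have : Nonempty Q := ⟨oQ⟩
  have : Nonempty (Bool × Fin M) := ⟨(true, ⟨0, hM⟩)⟩
  have haQ0 : ∀ x y, 0 ≤ aQ x y := fun x y => by rcases hQ.zo x y with h | h <;> simp [h]
  have hcZ : (Fintype.card (Bool × Fin M) : ℝ) = 2 * M := by simp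
  have c1 : Cert (fun f => (M / 2 : ℝ) * form aQ f) s (Real.exp η) := by
    refine Cert.scale (by positivity) ?_
    refine (cert_poincare (g := 4 * k) (by positivity) hQ.poin).mono (fun f => le_rfl) le_rfl ?_
    rw [hQ.card]
    have h1 : (2:ℝ) ^ (16 * k) ≤ Real.exp (16 * k) := by
      have : (2:ℝ) ≤ Real.exp 1 := by linarith [Real.add_one_le_exp 1]
      have h2 := pow_le_pow_left₀ (by norm_num) this (16 * k)
      rw [← Real.exp_nat_mul] at h2
      simpa using h2
    have h2 : Real.exp (-(s * (M / 2) * (4 * k))) ≤ Real.exp (-(32 * k)) :=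
      Real.exp_le_exp.mpr (by nlinarith)
    have h3 := mul_le_mul h1 h2 (Real.exp_pos _).le (Real.exp_pos _).le
    rw [← Real.exp_add, show 16 * (k:ℝ) + -(32 * k) = -(16 * k) by ring] at h3
    have h4 := exp_neg_le (x := 16 * k) (by positivity)
    have h5 : 1 / (16 * (k:ℝ)) ≤ η := by
      rw [div_le_iff₀ (by positivity)]
      nlinarith
    linarith [Real.add_one_le_exp η]
  have c2 : Cert (fun f : Bool × Fin M → ℝ => (4 * k : ℝ) * form (fun _ _ => 1) f) s
      (Real.exp η) := by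
    refine Cert.scale (by positivity) ?_
    refine (cert_poincare (g := 2 * M) (E := form (fun _ _ => 1)) (by positivity)
      (fun f => le_of_eq ?_)).mono (fun f => le_rfl) le_rfl ?_
    · rw [form_complete, hcZ]
      field_simp
    · rw [hcZ]
      have h2 : Real.exp (-(s * (4 * k) * (2 * M))) ≤ Real.exp (-(128 * k)) :=
        Real.exp_le_exp.mpr (by nlinarith)
      have h4 := exp_neg_le (x := 128 * k) (by positivity)
      have h5 : 2 * M * (1 / (128 * (k:ℝ))) ≤ η := by
        rw [mul_one_div, div_le_iff₀ (by positivity)]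
        nlinarith
      have h6 := mul_le_mul_of_nonneg_left (h2.trans h4) (show (0:ℝ) ≤ 2 * M by positivity)
      linarith [Real.add_one_le_exp η]
  have c3 : Cert (fun f => (1 / (2 + ε)) * form a f) s (Real.exp η) :=
    Cert.scale (by positivity) hC
  refine ((c1.prod c2).prod (c3.prod c3)).mono (fun f => ?_) le_rfl (le_of_eq ?_)
  swap
  · simp only [← Real.exp_add]
    congr 1
    ring
  let σZ : Bool × Fin M ≃ Bool × Fin M := Equiv.prodCongr Equiv.boolNot (Equiv.refl _)
  let σ : Q × (Bool × Fin M) ≃ Q × (Bool × Fin M) := Equiv.prodCongr (Equiv.refl _) σZ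
  have h1 := lamp_compare (fun p : Q × (Bool × Fin M) => p.2.1) σ (fun p => rfl) hε ha0 hsym
    hreg f
  have h2 : ∑ y, ∑ p, (f (p, y) - f (σ p, y)) ^ 2
      ≤ 2 * ∑ y, ∑ q, form (fun _ _ => 1) (fun z => f ((q, z), y)) := by
    rw [Finset.mul_sum]
    refine Finset.sum_le_sum fun y _ => ?_
    rw [Fintype.sum_prod_type, Finset.mul_sum]
    exact Finset.sum_le_sum fun q _ => flip_le σZ (fun z => f ((q, z), y))
  have h3 := Finset.sum_le_sum fun y (_ : y ∈ Finset.univ) =>
    move_compare haQ0 hQ.reg (fun p => f (p, y))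
  rw [form_comb]
  simp only [Finset.sum_add_distrib, ← Finset.mul_sum, hcZ] at h1 h3 ⊢
  set T1 := ∑ y, ∑ z, form aQ (fun q => f ((q, z), y))
  set T2 := ∑ y, ∑ q, form (fun _ _ => 1) (fun z => f ((q, z), y)) with hT2
  have hT2' : 0 ≤ T2 := by
    have : 0 ≤ ∑ y, ∑ p, (f (p, y) - f (σ p, y)) ^ 2 :=
      Finset.sum_nonneg fun y _ => Finset.sum_nonneg fun p _ => sq_nonneg _
    linarith
  set R := ∑ y, ∑ p, (f (p, y) - f (σ p, y)) ^ 2
  set act := ∑ p : Q × (Bool × Fin M), (if p.2.1 then ∑ x, form a (fun y => f (p, (x, y)))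
        else ∑ y, form a (fun x => f (p, (x, y))))
  set U1 := ∑ p, ∑ y, form a (fun x => f (p, (x, y)))
  set U2 := ∑ p, ∑ x, form a (fun y => f (p, (x, y)))
  have h4 : (1 + 1 / ε) * (2 * D) * R ≤ (1 + 1 / ε) * (2 * D) * (2 * T2) :=
    mul_le_mul_of_nonneg_left h2 (by positivity)
  have h5 : (1 + 1 / ε) * (2 * D) * (2 * T2) ≤ (2 + ε) * (4 * k * T2) := by
    have a1 := mul_le_mul_of_nonneg_right hk1 hT2'
    have a2 : 0 ≤ ε * (k * T2) := by positivity
    nlinarith
  have h6 : 1 / (2 + ε) * (U1 + U2) ≤ act + 4 * k * T2 := by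
    rw [one_div, inv_mul_le_iff₀ (by positivity)]
    linarith
  linarith

theorem stage_step {Q : Type} [Fintype Q] {aQ : Q → Q → ℝ} {l : Q → ℕ} {oQ : Q} {k : ℕ}
    (hQ : DirExp Q aQ l oQ k) (hk : 2 ≤ k) {M : ℕ} (hM : 1 ≤ M) {X : Type} [Fintype X]
    {a w : X → X → ℝ} {D : ℝ} {φ : X → ℝ} {o : X} {τ τ' η g : ℝ} (hη : 0 < η) (_hg : 0 ≤ g)
    (hτ1 : 1 ≤ τ') (hτ2 : τ' < τ) (hτ3 : τ ≤ 2) (hD : 0 ≤ D)
    (hX : Stage X a w D φ o (16 * τ' / (2 * M)) (τ' * (2 * M)) (Real.exp η) g η)
    (hk1 : D * (1 + 1 / (2 * (τ / τ' - 1))) ≤ 2 * k) (hk2 : M ≤ η * k) (hk3 : 8 ≤ η * k)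
    (hk4 : 1 ≤ (τ - τ') * k) :
    Stage ((Q × (Bool × Fin M)) × (X × X))
      (comb (fun p => p.2.1) (fun p p' => aQ p.1 p'.1) a)
      (comb (fun p => p.2.1) (vw M k aQ l) w) (64 * k * M + D)
      (fun z => psi M k l (τ' / (32 * k)) z.1 * φ z.2.2) ((oQ, (false, ⟨0, hM⟩)), (o, o))
      (16 * τ / M) (τ * M) (Real.exp (4 * η)) (3071 / 3072 * g) (4 * η) := by
  have hM1 : (1:ℝ) ≤ M := by exact_mod_cast hM
  have hk0 : (2:ℝ) ≤ k := by exact_mod_cast hk
  have haQ0 : ∀ x y, 0 ≤ aQ x y := fun x y => by rcases hQ.zo x y with h | h <;> simp [h]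
  have ha0 : ∀ x y, 0 ≤ a x y := fun x y => by rcases hX.zo x y with h | h <;> simp [h]
  set γ := τ' / (32 * k) with hγ
  have hγ1 : 1 / (32 * k) ≤ γ := div_le_div_of_nonneg_right hτ1 (by positivity)
  have hγ0 : 0 ≤ γ := le_trans (by positivity) hγ1
  have hγ2 : γ ≤ 1 := by
    rw [hγ, div_le_iff₀ (by positivity)]
    linarith
  have hγ3 : γ * (32 * k) = τ' := by
    rw [hγ]; field_simp
  have hψ0 : ∀ p, 0 ≤ psi M k l γ p := by
    intro p
    have := al_ge (k := k) (by omega) (l p.1)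
    simp only [psi]
    split_ifs <;> positivity
  refine ⟨comb_zo _ (fun p p' => hQ.zo _ _) (fun p => hQ.diag _) hX.zo,
    comb_symm _ (fun p p' => hQ.symm _ _) hX.symm, comb_diag _ (fun p => hQ.diag _) hX.diag,
    fun z => ?_, comb_trans _ hX.trans ?_, comb_symm _ (fun p p' => ?_) hX.wsymm,
    comb_mono _ (fun p p' => ?_) hX.wlo, comb_mono _ (fun p p' => ?_) hX.whi, ?_,
    fun z => mul_nonneg (hψ0 _) (hX.phi0 _), fun z => ?_, ?_, ?_⟩
  · have := comb_sum (fun p : Q × (Bool × Fin M) => p.2.1) (fun p p' => aQ p.1 p'.1) a z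
      (fun _ => 1)
    simp only [mul_one, hX.reg, ite_self] at this
    rw [this, Fintype.sum_prod_type]
    simp only [Finset.sum_const, Finset.card_univ, nsmul_eq_mul, ← Finset.mul_sum, hQ.reg,
      Fintype.card_prod, Fintype.card_bool, Fintype.card_fin]
    push_cast
    ring
  · rintro ⟨q, b, i⟩ ⟨q', b', i'⟩
    obtain ⟨e, he, hea⟩ := hQ.trans q q'
    by_cases hb : b = b'
    · exact ⟨Equiv.prodCongr e (Equiv.prodCongr (Equiv.refl _) (Equiv.swap i i')),
        by simp [he, hb], fun u u' => hea _ _, Or.inl fun u => rfl⟩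
    · refine ⟨Equiv.prodCongr e (Equiv.prodCongr Equiv.boolNot (Equiv.swap i i')),
        ?_, fun u u' => hea _ _, Or.inr fun u => rfl⟩
      have : (!b) = b' := by
        revert hb
        cases b <;> cases b' <;> simp
      simp [he, this]
  · simp only [vw, hQ.symm p.1 p'.1]
    ring
  · have := mul_le_mul_of_nonneg_left
      (vw_factor (k := k) (m := l p.1) (m' := l p'.1) p.2.1 p'.2.1).1 (haQ0 p.1 p'.1)
    simp only [vw]
    linarith
  · have := mul_le_mul_of_nonneg_left
      (vw_factor (k := k) (m := l p.1) (m' := l p'.1) p.2.1 p'.2.1).2 (haQ0 p.1 p'.1)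
    simp only [vw]
    linarith
  · have hε : 0 < 2 * (τ / τ' - 1) := by
      have : 1 < τ / τ' := by rw [lt_div_iff₀ (by linarith)]; linarith
      linarith
    refine cert_step hQ hM hε hη ha0 hX.symm hX.reg hD ?_ ?_ hk1 hk2
    · have : 16 * τ / M * (1 / (2 + 2 * (τ / τ' - 1))) = 16 * τ' / (2 * M) := by
        have h1 : 2 + 2 * (τ / τ' - 1) = 2 * τ / τ' := by ring
        have h2 : τ ≠ 0 := by linarith
        have h3 : τ' ≠ 0 := by linarith
        rw [h1]
        field_simp
      rw [this]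
      exact hX.cert
    · rw [div_mul_cancel₀ _ (by linarith)]
      linarith
  · obtain ⟨p, x, y⟩ := z
    rw [comb_sum]
    simp only [sub_self, mul_zero, Finset.sum_const_zero]
    have h1 := mul_le_mul_of_nonneg_right (lyap_move hQ (by omega) M hγ1 hγ2 p) (hX.phi0 y)
    have h2 := mul_le_mul_of_nonneg_left (hX.lyap y) (hψ0 p)
    have e1 : ∑ p', vw M k aQ l p p' * (psi M k l γ p' * φ y - psi M k l γ p * φ y)
        = (∑ p', vw M k aQ l p p' * (psi M k l γ p' - psi M k l γ p)) * φ y := by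
      rw [Finset.sum_mul]
      exact Finset.sum_congr rfl fun p' _ => by ring
    have e2 : ∑ y', w y y' * (psi M k l γ p * φ y' - psi M k l γ p * φ y)
        = psi M k l γ p * ∑ y', w y y' * (φ y' - φ y) := by
      rw [Finset.mul_sum]
      exact Finset.sum_congr rfl fun p' _ => by ring
    rw [e1, e2]
    have hα : 0 ≤ al k (l p.1) := le_trans (by norm_num) (al_ge (k := k) (by omega) (l p.1))
    have hN : 0 ≤ M * al k (l p.1) * φ y := by have := hX.phi0 y; positivity
    have hγ4 : 5 * γ ≤ τ - τ' := by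
      have : 5 * γ * k ≤ (τ - τ') * k := by nlinarith
      exact le_of_mul_le_mul_right this (by positivity)
    obtain ⟨q, b, i⟩ := p
    cases b
    · simp only [Bool.false_eq_true, if_false, add_zero, psi, sg, mul_one] at h1 ⊢
      have h3 : γ * (32 * k + 1) ≤ τ := by nlinarith
      have h4 := mul_le_mul_of_nonneg_left h3 hN
      nlinarith
    · simp only [if_true, psi, sg] at h1 h2 ⊢
      have h3 : γ * (32 * k * -1 + 1) + (1 + γ) * (τ' * 2) ≤ τ * (1 + γ) := by nlinarith
      have h4 := mul_le_mul_of_nonneg_left h3 hN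
      nlinarith
  · simp only [psi, hQ.lev0, Bool.false_eq_true, if_false, add_zero, mul_one]
    exact mul_le_mul (al_zero_le hk) hX.gain (hX.phi0 o) (by norm_num)
  · have key : ∀ z : (Q × (Bool × Fin M)) × (X × X),
        (if psi M k l γ z.1 * φ z.2.2 < 1 then (1:ℝ) else 0)
          ≤ (if l z.1.1 < k then 1 else 0) + (if φ z.2.2 < 1 then 1 else 0) := by
      intro z
      split_ifs with h1 h2 h3 <;> try norm_num
      exfalso
      have h4 : 1 ≤ psi M k l γ z.1 := by
        simp only [psi, al_far (not_lt.mp h2)]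
        split_ifs <;> linarith
      nlinarith [not_lt.mp ‹¬ φ z.2.2 < 1›]
    refine le_trans (Finset.sum_le_sum fun z _ => key z) ?_
    rw [Finset.sum_add_distrib]
    have s1 : ∀ F : Q → ℝ, ∑ z : (Q × (Bool × Fin M)) × (X × X), F z.1.1
        = 2 * M * Fintype.card X * Fintype.card X * ∑ q, F q := by
      intro F
      simp only [Fintype.sum_prod_type, Finset.sum_const, Finset.card_univ, nsmul_eq_mul,
        ← Finset.mul_sum, Fintype.card_prod, Fintype.card_bool, Fintype.card_fin]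
      push_cast
      ring
    have s2 : ∀ F : X → ℝ, ∑ z : (Q × (Bool × Fin M)) × (X × X), F z.2.2
        = 2 * M * Fintype.card X * Fintype.card Q * ∑ q, F q := by
      intro F
      simp only [Fintype.sum_prod_type, Finset.sum_const, Finset.card_univ, nsmul_eq_mul,
        Fintype.card_prod, Fintype.card_bool, Fintype.card_fin]
      push_cast
      ring
    rw [s1 (fun q => if l q < k then 1 else 0), s2 (fun y => if φ y < 1 then 1 else 0)]
    simp only [Fintype.card_prod, Fintype.card_bool, Fintype.card_fin]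
    push_cast
    have h1 := hQ.vol
    have h2 := hX.bad
    have h3 : (8:ℝ) / 16 ^ k ≤ η := by
      rw [div_le_iff₀ (by positivity)]
      have : (k:ℝ) ≤ 16 ^ k := by
        have := Nat.lt_pow_self (n := k) (show 1 < 16 by norm_num)
        exact_mod_cast this.le
      nlinarith
    set nQ : ℝ := (Fintype.card Q : ℝ)
    set nX : ℝ := (Fintype.card X : ℝ)
    have hnQ : 0 ≤ nQ := by positivity
    have hnX : 0 ≤ nX := by positivity
    have h4 := h1.trans (mul_le_mul_of_nonneg_right h3 hnQ)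
    have h5 := mul_le_mul_of_nonneg_left h4 (show 0 ≤ 2 * M * nX * nX by positivity)
    have h6 := mul_le_mul_of_nonneg_left h2 (show 0 ≤ 2 * M * nX * nQ by positivity)
    have h7 : 0 ≤ η * (M * nX * nX * nQ) := by positivity
    nlinarith

theorem exists_stage (j : ℕ) : ∀ (M : ℕ), 1 ≤ M → ∀ τ η : ℝ, 1 < τ → τ ≤ 2 → 0 < η →
    ∃ (X : Type) (_ : Fintype X) (a w : X → X → ℝ) (D : ℝ) (φ : X → ℝ) (o : X),
      Stage X a w D φ o (16 * τ / M) (τ * M) (Real.exp η) ((3071 / 3072) ^ j) η ∧ 0 ≤ D ∧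
        (j = 0 ∨ 1 ≤ D) := by
  induction j with
  | zero =>
    intro M hM τ η h1 h2 hη
    refine ⟨Unit, inferInstance, fun _ _ => 0, fun _ _ => 0, 0, fun _ => 1, (), ?_, le_rfl,
      Or.inl rfl⟩
    refine ⟨by simp, by simp, by simp, by simp, fun x y => ⟨Equiv.refl _, rfl, by simp⟩,
      by simp, by simp, by simp, ?_, by simp, ?_, by simp, by simp [hη.le]⟩
    · refine (cert_unit _).mono (fun f => by simp [form]) le_rfl ?_
      linarith [Real.add_one_le_exp η]
    · intro x
      simp only [zero_mul, Finset.sum_const_zero, mul_one]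
      positivity
  | succ j ih =>
    intro M hM τ η h1 h2 hη
    obtain ⟨X, hX, a, w, D, φ, o, hS, hD, -⟩ := ih (2 * M) (by omega) ((1 + τ) / 2) (η / 4)
      (by linarith) (by linarith) (by positivity)
    obtain ⟨k, hk⟩ := exists_nat_ge (2 + D * (1 + 1 / (2 * (τ / ((1 + τ) / 2) - 1)))
      + (M + 8) / (η / 4) + 1 / (τ - (1 + τ) / 2))
    have hε : 0 < 2 * (τ / ((1 + τ) / 2) - 1) := by
      have : 1 < τ / ((1 + τ) / 2) := by rw [lt_div_iff₀ (by linarith)]; linarith
      linarith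
    have p1 : 0 ≤ D * (1 + 1 / (2 * (τ / ((1 + τ) / 2) - 1))) := by positivity
    have p2 : 0 ≤ (M + 8) / (η / 4) := by positivity
    have p3 : 0 < τ - (1 + τ) / 2 := by linarith
    have p4 : 0 ≤ 1 / (τ - (1 + τ) / 2) := by positivity
    have hk2 : 2 ≤ k := by
      have : (2:ℝ) ≤ k := by linarith
      exact_mod_cast this
    have q1 : (M + 8 : ℝ) ≤ η / 4 * k := by
      have : (M + 8) / (η / 4) ≤ k := by linarith
      rw [div_le_iff₀ (by positivity)] at this
      linarith
    have q2 : 1 ≤ (τ - (1 + τ) / 2) * k := by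
      have : 1 / (τ - (1 + τ) / 2) ≤ k := by linarith
      rw [div_le_iff₀ p3] at this
      linarith
    have hM0 : (1:ℝ) ≤ M := by exact_mod_cast hM
    obtain ⟨Q, hQ, aQ, l, oQ, hDE⟩ := exists_dirExp k hk2
    push_cast at hS
    have := stage_step hDE hk2 hM (τ := τ) (by positivity) (by positivity) (by linarith)
      (by linarith) h2 hD hS (by linarith) (by linarith) (by linarith) q2
    rw [show 4 * (η / 4) = η by ring, ← pow_succ'] at this
    have hk0 : (2:ℝ) ≤ k := by exact_mod_cast hk2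
    have hpos : (1:ℝ) ≤ 64 * k * M + D := by nlinarith
    exact ⟨_, inferInstance, _, _, _, _, _, this, by linarith, Or.inr hpos⟩

end Pool.Agent.P.MP_78d095_pr
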